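import Pool.Agent.Run7.h555.P15.M6
import Pool.Agent.Run7.h209.P15.Per

/-!
# Project P15, piece PER of M6
-/

set_option autoImplicit false

open MeasureTheory

namespace Run7.h209.P15

/-- **PER** -/
theorem s_per : Run7.h555.P15.S_PER := by
  intro L Op Om h1 h2 g2 g3 hL n hn
  have h := per L Op Om h1 h2 g2 g3 hL n hn
  exact h

end Run7.h209.P15
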