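import Pool.Agent.Run7.h741.MF.Stm
import Pool.Agent.W97.TW.Eleven

/-!
# The constant principle on `X_0(pq)` for distinct primes `p`, `q`

Generalisation of `Pool/Agent/W646/MT/CP.lean` (level 14).
-/

set_option autoImplicit false

open UpperHalfPlane MatrixGroups CongruenceSubgroup Filter Topology
open scoped ModularForm Pointwise

namespace Run7.h209.P15

open Pool.Agent.W97.TW

/-- representatives of the cusps -/
theorem cusp_reps_gen (p q : ℕ) (hp : p.Prime) (hq : q.Prime) (hpq : p ≠ q) (a b c d : ℤ)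
    (h : a * d - b * c = 1) : ∃ j e : ℤ,
    (e = 0 ∨ e = 1 ∨ e = p ∨ e = q) ∧ ((p : ℤ) * q) ∣ c - e * (d - j * c) := by
  have hpi : Prime (p : ℤ) := Nat.prime_iff_prime_int.1 hp
  have hqi : Prime (q : ℤ) := Nat.prime_iff_prime_int.1 hq
  have hcop : IsCoprime (p : ℤ) (q : ℤ) :=
    Nat.isCoprime_iff_coprime.2 ((Nat.coprime_primes hp hq).2 hpq)
  by_cases h1 : (p : ℤ) ∣ c
  · by_cases h2 : (q : ℤ) ∣ c
    · refine ⟨0, 0, Or.inl rfl, ?_⟩
      have := hcop.mul_dvd h1 h2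
      simpa using this
    · obtain ⟨c', hc'⟩ := h1
      obtain ⟨u, v, huv⟩ : IsCoprime c (q : ℤ) := ((hqi.coprime_iff_not_dvd).2 h2).symm
      refine ⟨(d - c') * u, p, Or.inr (Or.inr (Or.inl rfl)), ⟨-(d - c') * v, ?_⟩⟩
      have e : c - p * (d - (d - c') * u * c) = p * (c' - d + (d - c') * (u * c)) := by
        linear_combination hc'
      rw [e, show u * c = 1 - v * q by linarith]
      ring
  · by_cases h2 : (q : ℤ) ∣ c
    · obtain ⟨c', hc'⟩ := h2
      obtain ⟨u, v, huv⟩ : IsCoprime c (p : ℤ) := ((hpi.coprime_iff_not_dvd).2 h1).symm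
      refine ⟨(d - c') * u, q, Or.inr (Or.inr (Or.inr rfl)), ⟨-(d - c') * v, ?_⟩⟩
      have e : c - q * (d - (d - c') * u * c) = q * (c' - d + (d - c') * (u * c)) := by
        linear_combination hc'
      rw [e, show u * c = 1 - v * p by linarith]
      ring
    · have h3 : IsCoprime c ((p : ℤ) * q) :=
        IsCoprime.mul_right ((hpi.coprime_iff_not_dvd).2 h1).symm
          ((hqi.coprime_iff_not_dvd).2 h2).symm
      obtain ⟨u, v, huv⟩ := h3
      refine ⟨(d - c) * u, 1, Or.inr (Or.inl rfl), ⟨-(d - c) * v, ?_⟩⟩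
      have e : c - 1 * (d - (d - c) * u * c) = c - d + (d - c) * (u * c) := by ring
      rw [e, show u * c = 1 - v * ((p : ℤ) * q) by linarith]
      ring

section

variable {p q : ℕ} {g : ℂ → ℂ}
  (hinv : ∀ a b c d : ℤ, a * d - b * ((p : ℤ) * q * c) = 1 → ∀ z : ℂ, 0 < z.im →
    g ((a * z + b) / ((p : ℂ) * q * c * z + d)) = g z)

include hinv

/-- invariance under translations -/
theorem inv_T_gen (j : ℤ) {z : ℂ} (hz : 0 < z.im) : g (z + j) = g z := by
  have h := hinv 1 j 0 1 (by ring) z hz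
  rw [← h]
  congr 1
  push_cast
  ring

/-- reduction to the representatives of the cusps -/
theorem reduce_gen {a b c d : ℤ} (h : a * d - b * c = 1) (j e : ℤ)
    (hN : ((p : ℤ) * q) ∣ c - e * (d - j * c)) {z : ℂ} (hz : 0 < z.im) :
    g ((a * z + b) / (c * z + d)) = g ((z + j) / (e * (z + j) + 1)) := by
  obtain ⟨c0, hc0⟩ := hN
  have hw : 0 < (z + j).im := by simpa using hz
  have hu := im_moebius (a := 1) (b := 0) (c := e) (d := 1) (by ring) hw
  have hu1 : 0 < ((z + j) / (e * (z + j) + 1)).im := by simpa using hu.1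
  have hu2 : (e : ℂ) * (z + j) + 1 ≠ 0 := by simpa using hu.2
  have h2 := hinv (a - e * (b - j * a)) (b - j * a) c0 (d - j * c)
    (by rw [← hc0]; linear_combination h) _ hu1
  rw [← h2]
  have hc0' : (p : ℂ) * q * c0 = c - e * (d - j * c) := by exact_mod_cast hc0.symm
  congr 1
  rw [hc0']
  have e1 : ((a - e * (b - j * a) : ℤ) : ℂ) * ((z + j) / (e * (z + j) + 1)) +
      ((b - j * a : ℤ) : ℂ) = (a * z + b) / (e * (z + j) + 1) := by
    rw [eq_div_iff hu2, add_mul, mul_assoc, div_mul_cancel₀ _ hu2]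
    push_cast
    ring
  have e2 : ((c : ℂ) - e * (d - j * c)) * ((z + j) / (e * (z + j) + 1)) +
      ((d - j * c : ℤ) : ℂ) = (c * z + d) / (e * (z + j) + 1) := by
    rw [eq_div_iff hu2, add_mul, mul_assoc, div_mul_cancel₀ _ hu2]
    push_cast
    ring
  rw [e1, e2, div_div_div_cancel_right₀ hu2]

/-- boundedness at all cusps -/
theorem bdd_gen (hp : p.Prime) (hq : q.Prime) (hpq : p ≠ q) (α β : ℤ)
    (h1 : ∃ B T : ℝ, ∀ z : ℂ, T < z.im → ‖g z‖ ≤ B)
    (h2 : ∃ B T : ℝ, 0 ≤ T ∧ ∀ z : ℂ, T < z.im → ‖g (-1 / ((p : ℂ) * q * z))‖ ≤ B)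
    (h3 : ∃ B T : ℝ, 0 ≤ T ∧ ∀ z : ℂ, T < z.im →
      ‖g (((q : ℂ) * z - α) / ((p : ℂ) * q * z - ((p : ℂ) * α - 1)))‖ ≤ B)
    (h4 : ∃ B T : ℝ, 0 ≤ T ∧ ∀ z : ℂ, T < z.im →
      ‖g (((p : ℂ) * z - β) / ((p : ℂ) * q * z - ((q : ℂ) * β - 1)))‖ ≤ B)
    {a b c d : ℤ} (h : a * d - b * c = 1) :
    ∃ B T : ℝ, ∀ z : ℂ, 0 < z.im → T < z.im → ‖g ((a * z + b) / (c * z + d))‖ ≤ B := by
  have hp0 : (p : ℂ) ≠ 0 := by exact_mod_cast hp.ne_zero
  have hq0 : (q : ℂ) ≠ 0 := by exact_mod_cast hq.ne_zero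
  have hp0' : (0 : ℝ) < p := by exact_mod_cast hp.pos
  have hq0' : (0 : ℝ) < q := by exact_mod_cast hq.pos
  obtain ⟨j, e, he, hN⟩ := cusp_reps_gen p q hp hq hpq a b c d h
  rcases he with rfl | rfl | rfl | rfl
  · obtain ⟨B, T, hB⟩ := h1
    refine ⟨B, T, fun z hz hT => ?_⟩
    rw [reduce_gen hinv h j 0 hN hz]
    have e1 : (z + j) / (((0 : ℤ) : ℂ) * (z + j) + 1) = z + j := by push_cast; ring
    rw [e1]
    exact hB _ (by simpa using hT)
  · obtain ⟨B, T, hT0, hB⟩ := h2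
    refine ⟨B, p * q * T, fun z hz hT => ?_⟩
    rw [reduce_gen hinv h j 1 hN hz]
    obtain ⟨v, hv⟩ : ∃ v : ℂ, v = (z + j + 1) / ((p * q : ℝ) : ℂ) := ⟨_, rfl⟩
    have hvi : v.im = z.im / (p * q) := by
      rw [hv, Complex.div_ofReal_im]
      simp
    have hvT : T < v.im := by
      rw [hvi, lt_div_iff₀ (by positivity)]
      linarith
    have hvz : (p : ℂ) * q * v = z + j + 1 := by
      rw [hv]
      push_cast
      field_simp
    have hv0 : 0 < ((p : ℂ) * q * v).im := by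
      rw [hvz]
      simpa using hz
    have hm := (im_moebius (a := 0) (b := -1) (c := 1) (d := 0) (by norm_num) hv0).1
    have hn := (im_moebius (a := 0) (b := -1) (c := 1) (d := 0) (by norm_num) hv0).2
    have hm' : 0 < (-1 / ((p : ℂ) * q * v)).im := by simpa using hm
    have hn' : (p : ℂ) * q * v ≠ 0 := by
      intro h0
      rw [h0] at hv0
      simp at hv0
    have h5 := inv_T_gen hinv 1 hm'
    have e1 : (z + j) / (((1 : ℤ) : ℂ) * (z + j) + 1) = -1 / ((p : ℂ) * q * v) + ((1 : ℤ) : ℂ) := by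
      have e2 : ((1 : ℤ) : ℂ) * (z + j) + 1 = (p : ℂ) * q * v := by
        rw [hvz]; push_cast; ring
      rw [e2, div_add' _ _ _ hn']
      congr 1
      rw [hvz]
      push_cast
      ring
    rw [e1, h5]
    exact hB _ hvT
  · obtain ⟨B, T, hT0, hB⟩ := h3
    refine ⟨B, q * T, fun z hz hT => ?_⟩
    rw [reduce_gen hinv h j p hN hz]
    obtain ⟨v, hv⟩ : ∃ v : ℂ, v = (z + j + α) / ((q : ℝ) : ℂ) := ⟨_, rfl⟩
    have hvi : v.im = z.im / q := by
      rw [hv, Complex.div_ofReal_im]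
      simp
    have hvz : (q : ℂ) * v = z + j + α := by
      rw [hv]
      push_cast
      field_simp
    have e1 : (z + j) / (((p : ℤ) : ℂ) * (z + j) + 1) =
        ((q : ℂ) * v - α) / ((p : ℂ) * q * v - ((p : ℂ) * α - 1)) := by
      rw [mul_assoc, hvz]
      push_cast
      congr 1
      · ring
      · ring
    rw [e1]
    exact hB _ (by rw [hvi, lt_div_iff₀ hq0']; linarith)
  · obtain ⟨B, T, hT0, hB⟩ := h4
    refine ⟨B, p * T, fun z hz hT => ?_⟩
    rw [reduce_gen hinv h j q hN hz]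
    obtain ⟨v, hv⟩ : ∃ v : ℂ, v = (z + j + β) / ((p : ℝ) : ℂ) := ⟨_, rfl⟩
    have hvi : v.im = z.im / p := by
      rw [hv, Complex.div_ofReal_im]
      simp
    have hvz : (p : ℂ) * v = z + j + β := by
      rw [hv]
      push_cast
      field_simp
    have e1 : (z + j) / (((q : ℤ) : ℂ) * (z + j) + 1) =
        ((p : ℂ) * v - β) / ((p : ℂ) * q * v - ((q : ℂ) * β - 1)) := by
      rw [mul_comm (p : ℂ) (q : ℂ), mul_assoc, hvz]
      push_cast
      congr 1
      · ring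
      · ring
    rw [e1]
    exact hB _ (by rw [hvi, lt_div_iff₀ hp0']; linarith)

end

/-- the constant principle on `X_0(pq)` -/
theorem cp_gen (p q : ℕ) (hp : p.Prime) (hq : q.Prime) (hpq : p ≠ q) (α β : ℤ) (g : ℂ → ℂ)
    (hd : DifferentiableOn ℂ g {z : ℂ | 0 < z.im})
    (hinv : ∀ a b c d : ℤ, a * d - b * ((p : ℤ) * q * c) = 1 → ∀ z : ℂ, 0 < z.im →
      g ((a * z + b) / ((p : ℂ) * q * c * z + d)) = g z)
    (h1 : ∃ B T : ℝ, ∀ z : ℂ, T < z.im → ‖g z‖ ≤ B)
    (h2 : ∃ B T : ℝ, 0 ≤ T ∧ ∀ z : ℂ, T < z.im → ‖g (-1 / ((p : ℂ) * q * z))‖ ≤ B)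
    (h3 : ∃ B T : ℝ, 0 ≤ T ∧ ∀ z : ℂ, T < z.im →
      ‖g (((q : ℂ) * z - α) / ((p : ℂ) * q * z - ((p : ℂ) * α - 1)))‖ ≤ B)
    (h4 : ∃ B T : ℝ, 0 ≤ T ∧ ∀ z : ℂ, T < z.im →
      ‖g (((p : ℂ) * z - β) / ((p : ℂ) * q * z - ((q : ℂ) * β - 1)))‖ ≤ B) :
    ∃ c : ℂ, ∀ z : ℂ, 0 < z.im → g z = c := by
  haveI : NeZero (p * q) := ⟨mul_ne_zero hp.ne_zero hq.ne_zero⟩
  let F : ModularForm (Gamma0 (p * q) : Subgroup (GL (Fin 2) ℝ)) 0 :=
    { toFun := fun z => g z
      slash_action_eq' := by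
        rintro _ ⟨γ, hγ, rfl⟩
        change (fun z : ℍ => g z) ∣[(0 : ℤ)] γ = _
        obtain ⟨a, b, c, d, h, rfl⟩ := exists_mkSL γ
        have hγ' := (mkSL_mem a b c d h (p * q)).1 hγ
        clear hγ
        obtain ⟨c, rfl⟩ := hγ'
        funext z
        rw [ModularForm.SL_slash_apply, neg_zero, zpow_zero, mul_one, mkSL_smul]
        have h5 := hinv a b c d (by push_cast at h; exact h) z z.im_pos
        push_cast
        exact h5
      holo' := by
        rw [UpperHalfPlane.mdifferentiable_iff]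
        refine hd.congr fun z hz => ?_
        rw [Function.comp_apply, ofComplex_apply_of_im_pos hz]
        rfl
      bdd_at_cusps' := by
        intro c hc
        rw [Subgroup.IsArithmetic.isCusp_iff_isCusp_SL2Z] at hc
        rw [OnePoint.isBoundedAt_iff_forall_SL2Z hc]
        intro γ _
        obtain ⟨a, b, c, d, h, rfl⟩ := exists_mkSL γ
        obtain ⟨B, T, hB⟩ := bdd_gen hinv hp hq hpq α β h1 h2 h3 h4 h
        rw [isBoundedAtImInfty_iff]
        refine ⟨B, T + 1, fun z hz => ?_⟩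
        rw [ModularForm.SL_slash_apply, neg_zero, zpow_zero, mul_one, mkSL_smul]
        exact hB z z.im_pos (by
          have : z.im = (z : ℂ).im := rfl
          linarith) }
  obtain ⟨c, hc⟩ := ModularForm.eq_const_of_weight_zero F
  refine ⟨c, fun z hz => ?_⟩
  have h1 := congrFun hc ⟨z, hz⟩
  exact h1

end Run7.h209.P15
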