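import Pool.Agent.Run7.h209.P15.Lat

/-!
# The period lattice of every real elliptic curve of positive discriminant is rectangular

`rect_lattice`: for real `A`, `B` with `A³ > 27 B²` there is a rectangular lattice with `g₂ = A`, `g₃ = B`.
-/

set_option autoImplicit false

open Set Filter Topology

namespace Run7.h209.P15

open Pool.Agent.W646.MT (not_both scale scale_g2 scale_g3)

theorem g2f_one : 0 < g2f 1 := by
  have h := G4_one
  rw [G_eq] at h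
  unfold g2f
  linarith

theorem g3f_one : g3f 1 = 0 := by
  have h := G6_one
  rw [G_eq] at h
  unfold g3f
  rw [h]
  simp

theorem exists_t' (A B : ℝ) (h : 27 * B ^ 2 < A ^ 3) : ∃ t : ℝ, 0 < t ∧
    g2f t ^ 3 * B ^ 2 - A ^ 3 * g3f t ^ 2 = 0 := by
  have hc4 := G_cont 4 (by norm_num)
  have hc6 := G_cont 6 (by norm_num)
  have hg2 : ContinuousOn g2f (Ici 1) :=
    (Complex.continuous_re.comp_continuousOn hc4).const_mul 60
  have hg3 : ContinuousOn g3f (Ici 1) :=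
    (Complex.continuous_re.comp_continuousOn hc6).const_mul 140
  have hφ : ContinuousOn (fun t => g2f t ^ 3 * B ^ 2 - A ^ 3 * g3f t ^ 2) (Ici 1) := by
    fun_prop
  have hlim : Tendsto (fun t => g2f t ^ 3 * B ^ 2 - A ^ 3 * g3f t ^ 2) atTop
      (𝓝 ((4 * Real.pi ^ 4 / 3) ^ 3 * B ^ 2 - A ^ 3 * (8 * Real.pi ^ 6 / 27) ^ 2)) :=
    ((g2_lim.pow 3).mul_const _).sub ((g3_lim.pow 2).const_mul _)
  have hneg : (4 * Real.pi ^ 4 / 3) ^ 3 * B ^ 2 - A ^ 3 * (8 * Real.pi ^ 6 / 27) ^ 2 < 0 := by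
    have e : (4 * Real.pi ^ 4 / 3) ^ 3 * B ^ 2 - A ^ 3 * (8 * Real.pi ^ 6 / 27) ^ 2 =
        -(Real.pi ^ 12 * (64 / 729 * (A ^ 3 - 27 * B ^ 2))) := by
      ring
    rw [e]
    have h1 : 0 < Real.pi ^ 12 := by positivity
    have h2 : 0 < 64 / 729 * (A ^ 3 - 27 * B ^ 2) := by linarith
    linarith [mul_pos h1 h2]
  obtain ⟨T, hT1, hT⟩ := ((eventually_ge_atTop (1 : ℝ)).and
    (hlim.eventually (gt_mem_nhds hneg))).exists
  have h5 := intermediate_value_Icc' hT1 (hφ.mono Icc_subset_Ici_self)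
  have h6 : (0 : ℝ) ∈ Icc (g2f T ^ 3 * B ^ 2 - A ^ 3 * g3f T ^ 2)
      (g2f 1 ^ 3 * B ^ 2 - A ^ 3 * g3f 1 ^ 2) := by
    refine ⟨hT.le, ?_⟩
    have h7 := g2f_one
    have h8 : g2f 1 ^ 3 * B ^ 2 - A ^ 3 * g3f 1 ^ 2 = g2f 1 ^ 3 * B ^ 2 := by
      rw [g3f_one]; ring
    rw [h8]
    positivity
  obtain ⟨t, ht, hφt⟩ := h5 h6
  exact ⟨t, by have := ht.1; linarith, hφt⟩

theorem exists_mu (A B : ℝ) (h : 27 * B ^ 2 < A ^ 3) : ∃ t μ : ℝ, 0 < t ∧ μ ≠ 0 ∧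
    μ ^ 2 * g2f t = A ∧ μ ^ 3 * g3f t = B := by
  have hA3 : 0 < A ^ 3 := lt_of_le_of_lt (by positivity) h
  have hA : 0 < A := by
    by_contra hc
    push Not at hc
    have : A ^ 3 ≤ 0 := by
      have e : A ^ 3 = A * A ^ 2 := by ring
      rw [e]
      exact mul_nonpos_of_nonpos_of_nonneg hc (sq_nonneg A)
    linarith
  by_cases hB : B = 0
  · have h1 := g2f_one
    refine ⟨1, √(A / g2f 1), one_pos, (Real.sqrt_pos.2 (by positivity)).ne', ?_, ?_⟩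
    · rw [Real.sq_sqrt (by positivity)]
      field_simp
    · rw [g3f_one, hB, mul_zero]
  · obtain ⟨t, ht, hφ⟩ := exists_t' A B h
    obtain ⟨a, ha⟩ : ∃ a, a = g2f t := ⟨_, rfl⟩
    obtain ⟨b, hb⟩ : ∃ b, b = g3f t := ⟨_, rfl⟩
    rw [← ha, ← hb] at hφ
    have hg2 := g2_eq t ht.ne'
    have hg3 := g3_eq t ht.ne'
    rw [← ha] at hg2
    rw [← hb] at hg3
    have hnb : ¬ (a = 0 ∧ b = 0) := by
      rintro ⟨h1, h2⟩
      apply not_both (Lr_halves (t := t) (ht := ht.ne'))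
      rw [hg2, hg3, h1, h2]
      simp
    have hb0 : b ≠ 0 := by
      intro h0
      apply hnb
      refine ⟨?_, h0⟩
      rw [h0] at hφ
      have h1 : a ^ 3 * B ^ 2 = 0 := by linarith
      have h2 : a ^ 3 = 0 := (mul_eq_zero.1 h1).resolve_right (pow_ne_zero 2 hB)
      exact pow_eq_zero_iff (by norm_num) |>.1 h2
    have ha0 : a ≠ 0 := by
      intro h0
      apply hnb
      refine ⟨h0, ?_⟩
      rw [h0] at hφ
      have h1 : A ^ 3 * b ^ 2 = 0 := by linarith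
      have h2 : b ^ 2 = 0 := (mul_eq_zero.1 h1).resolve_left hA3.ne'
      exact pow_eq_zero_iff (by norm_num) |>.1 h2
    have hcu : A ^ 3 * b ^ 2 = B ^ 2 * a ^ 3 := by linarith
    refine ⟨t, (B / b) / (A / a), ht, by positivity, ?_, ?_⟩
    · rw [← ha]
      field_simp
      linear_combination -hcu
    · rw [← hb]
      field_simp
      linear_combination -hcu

/-- **rectangular period lattices** -/
theorem rect_lattice (A B : ℝ) (h : 27 * B ^ 2 < A ^ 3) :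
    ∃ (L : PeriodPair) (Op Om : ℝ), 0 < Op ∧ 0 < Om ∧ L.g₂ = (A : ℂ) ∧ L.g₃ = (B : ℂ) ∧
      ∀ w : ℂ, w ∈ L.lattice ↔ ∃ a b : ℤ, w = a * Op + b * Om * Complex.I := by
  obtain ⟨t, μ, ht, hμ0, hμ2, hμ3⟩ := exists_mu A B h
  have htn := ht.ne'
  have hg2 := g2_eq t htn
  have hg3 := g3_eq t htn
  have hμ2' : (μ : ℂ) ^ 2 * (g2f t : ℂ) = A := by
    rw [← Complex.ofReal_pow, ← Complex.ofReal_mul, hμ2]
  have hμ3' : (μ : ℂ) ^ 3 * (g3f t : ℂ) = B := by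
    rw [← Complex.ofReal_pow, ← Complex.ofReal_mul, hμ3]
  rcases lt_or_gt_of_ne hμ0 with hneg | hpos
  · obtain ⟨s, hs, hs2⟩ : ∃ s : ℝ, 0 < s ∧ s ^ 2 * (-μ) = 1 := by
      refine ⟨(√(-μ))⁻¹, inv_pos.2 (Real.sqrt_pos.2 (by linarith)), ?_⟩
      rw [inv_pow, Real.sq_sqrt (by linarith), inv_mul_cancel₀ (by linarith)]
    have hs2' : (s : ℂ) ^ 2 * (-μ) = 1 := by exact_mod_cast hs2
    have hs0 : (s : ℂ) ≠ 0 := by exact_mod_cast hs.ne'
    have hlam : (s : ℂ) * Complex.I ≠ 0 := mul_ne_zero hs0 Complex.I_ne_zero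
    have h4 : ((s : ℂ) * Complex.I) ^ 4 * μ ^ 2 = 1 := by
      rw [mul_pow, Complex.I_pow_four]
      linear_combination (-(s : ℂ) ^ 2 * μ + 1) * hs2'
    have h6 : ((s : ℂ) * Complex.I) ^ 6 * μ ^ 3 = 1 := by
      have e : Complex.I ^ 6 = -1 := by
        calc Complex.I ^ 6 = (Complex.I ^ 2) ^ 3 := by ring
          _ = -1 := by rw [Complex.I_sq]; norm_num
      rw [mul_pow, e]
      linear_combination (((s : ℂ) ^ 2 * (-μ)) ^ 2 + (s : ℂ) ^ 2 * (-μ) + 1) * hs2'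
    refine ⟨scale (Lr t htn) ((s : ℂ) * Complex.I) hlam, s * t, s, by positivity,
      by positivity, ?_, ?_, ?_⟩
    · rw [scale_g2, hg2, ← hμ2', inv_eq_of_mul_eq_one_right h4]
    · rw [scale_g3, hg3, ← hμ3', inv_eq_of_mul_eq_one_right h6]
    · intro w
      rw [PeriodPair.mem_lattice]
      simp only [scale, Lr, ta_eq]
      constructor
      · rintro ⟨m, n, rfl⟩
        refine ⟨-n, m, ?_⟩
        push_cast
        linear_combination (n : ℂ) * s * t * Complex.I_sq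
      · rintro ⟨x, y, rfl⟩
        refine ⟨y, -x, ?_⟩
        push_cast
        linear_combination -(x : ℂ) * s * t * Complex.I_sq
  · obtain ⟨s, hs, hs2⟩ : ∃ s : ℝ, 0 < s ∧ s ^ 2 * μ = 1 := by
      refine ⟨(√μ)⁻¹, inv_pos.2 (Real.sqrt_pos.2 hpos), ?_⟩
      rw [inv_pow, Real.sq_sqrt hpos.le, inv_mul_cancel₀ hμ0]
    have hs2' : (s : ℂ) ^ 2 * μ = 1 := by exact_mod_cast hs2
    have hs0 : (s : ℂ) ≠ 0 := by exact_mod_cast hs.ne'
    have h4 : (s : ℂ) ^ 4 * μ ^ 2 = 1 := by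
      linear_combination ((s : ℂ) ^ 2 * μ + 1) * hs2'
    have h6 : (s : ℂ) ^ 6 * μ ^ 3 = 1 := by
      linear_combination (((s : ℂ) ^ 2 * μ) ^ 2 + (s : ℂ) ^ 2 * μ + 1) * hs2'
    refine ⟨scale (Lr t htn) (s : ℂ) hs0, s, s * t, by positivity,
      by positivity, ?_, ?_, ?_⟩
    · rw [scale_g2, hg2, ← hμ2', inv_eq_of_mul_eq_one_right h4]
    · rw [scale_g3, hg3, ← hμ3', inv_eq_of_mul_eq_one_right h6]
    · intro w
      rw [PeriodPair.mem_lattice]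
      simp only [scale, Lr, ta_eq]
      constructor
      · rintro ⟨m, n, rfl⟩
        refine ⟨m, n, ?_⟩
        push_cast
        ring
      · rintro ⟨x, y, rfl⟩
        refine ⟨x, y, ?_⟩
        push_cast
        ring

end Run7.h209.P15
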