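import Pool.Agent.Run7.h209.P15.Gen
import Pool.Agent.Run7.h209.P15.LatGen

/-!
# Project P21: the curve `E21 = [1, 0, 0, -4, -1]` (the modular curve `X_0(21)`)

`eight21` : `8 ∣ #E21(𝔽_p)` for `p ≠ 2, 3, 7`; `min21`, `inv21` : minimality, invariants, small counts; `tors21` : the
points of order four `x = 5`, `x = -1`; `lat21` : the rectangular period lattice (`g₂ = 193/12`, `g₃ = 575/216`).
`HASSE` is `Run7.h209.P15.hasse` (any curve, any shift), the constant principle is `Run7.h209.P15.cp_gen`.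
-/

set_option autoImplicit false

namespace Run7.h209.P15

open Pool.Agent.W97.MT WeierstrassCurve

/-- The curve `y² + xy = x³ - 4x - 1` (the modular curve `X_0(21)`). -/
def E21 : WeierstrassCurve ℤ := ⟨1, 0, 0, -4, -1⟩

theorem delta21 : E21.Δ = 3969 := by
  simp [WeierstrassCurve.Δ, WeierstrassCurve.b₂, WeierstrassCurve.b₄, WeierstrassCurve.b₆,
    WeierstrassCurve.b₈, E21]

theorem eight21 (p : ℕ) (hp : p.Prime) (h2 : p ≠ 2) (h3 : p ≠ 3) (h7 : p ≠ 7) :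
    8 ∣ affCount E21 p + 1 := by
  have hpi : Prime (p : ℤ) := Nat.prime_iff_prime_int.1 hp
  have k2 : ¬ (p : ℤ) ∣ 2 := by
    intro h
    have : p ∣ 2 := by exact_mod_cast h
    exact h2 ((Nat.prime_dvd_prime_iff_eq hp Nat.prime_two).1 this)
  have k3 : ¬ (p : ℤ) ∣ 3 := by
    intro h
    have : p ∣ 3 := by exact_mod_cast h
    exact h3 ((Nat.prime_dvd_prime_iff_eq hp (by norm_num)).1 this)
  have k7 : ¬ (p : ℤ) ∣ 7 := by
    intro h
    have : p ∣ 7 := by exact_mod_cast h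
    exact h7 ((Nat.prime_dvd_prime_iff_eq hp (by norm_num)).1 this)
  have kΔ : ¬ (p : ℤ) ∣ E21.Δ := by
    rw [delta21]
    intro h
    have e : (3969 : ℤ) = 3 ^ 4 * 7 ^ 2 := by norm_num
    rw [e] at h
    rcases hpi.dvd_or_dvd h with h | h
    · exact k3 (hpi.dvd_of_dvd_pow h)
    · exact k7 (hpi.dvd_of_dvd_pow h)
  refine eight_gen E21 p hp 5 8 2 (-1) (-2) 1 3 kΔ ?_ ?_ ?_ ?_ ?_ ?_ ?_ ?_ ?_ ?_ ?_
  · norm_num [E21]
  · norm_num [E21]
  · norm_num [E21]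
  · norm_num [E21]
  · norm_num [E21]
  · have e : 2 * (8 : ℤ) + E21.a₁ * 5 + E21.a₃ = 3 * 7 := by norm_num [E21]
    rw [e]
    intro h
    rcases hpi.dvd_or_dvd h with h | h
    · exact k3 h
    · exact k7 h
  · norm_num [E21]
  · norm_num [E21]
  · norm_num [E21]
  · have e : (5 : ℤ) - (-2) = 7 := by norm_num
    rw [e]
    exact k7
  · have e : (2 : ℤ) - (-2) = 2 * 2 := by norm_num
    rw [e]
    intro h
    rcases hpi.dvd_or_dvd h with h | h
    · exact k2 h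
    · exact k2 h

theorem e21_eq (p : ℕ) (P : ZMod p × ZMod p) :
    (E21.map (Int.castRingHom (ZMod p))).toAffine.Equation P.1 P.2 ↔
      P.2 ^ 2 + P.1 * P.2 = P.1 ^ 3 - 4 * P.1 - 1 := by
  have ha1 : (E21.map (Int.castRingHom (ZMod p))).a₁ = 1 := by simp [E21]
  have ha2 : (E21.map (Int.castRingHom (ZMod p))).a₂ = 0 := by simp [E21]
  have ha3 : (E21.map (Int.castRingHom (ZMod p))).a₃ = 0 := by simp [E21]
  have ha4 : (E21.map (Int.castRingHom (ZMod p))).a₄ = -4 := by simp [E21]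
  have ha6 : (E21.map (Int.castRingHom (ZMod p))).a₆ = -1 := by simp [E21]
  rw [WeierstrassCurve.Affine.equation_iff, ha1, ha2, ha3, ha4, ha6]
  constructor <;> intro h <;> linear_combination h

theorem aff_eq21 (p : ℕ) [NeZero p] : affCount E21 p =
    (Finset.univ.filter (fun P : ZMod p × ZMod p =>
      P.2 ^ 2 + P.1 * P.2 = P.1 ^ 3 - 4 * P.1 - 1)).card := by
  unfold affCount
  rw [Nat.card_congr (Equiv.subtypeEquivRight (e21_eq p)), Nat.card_eq_fintype_card,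
    Fintype.card_subtype]

/-- minimality from a discriminant with no twelfth power factor -/
theorem minimal_of (W : WeierstrassCurve ℤ) (h0 : W.Δ ≠ 0) (h12 : ∀ k : ℕ, 2 ≤ k → ¬ k ^ 12 ∣ W.Δ.natAbs) :
    IsGloballyMinimal W := by
  refine ⟨h0, ?_⟩
  intro W' C h
  have h1 := congrArg WeierstrassCurve.Δ h
  rw [WeierstrassCurve.variableChange_Δ, WeierstrassCurve.map_Δ, WeierstrassCurve.map_Δ] at h1
  obtain ⟨D, hD⟩ : ∃ D, D = W.Δ := ⟨_, rfl⟩
  rw [← hD] at h1 h0 h12 ⊢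
  obtain ⟨r, hr⟩ : ∃ r : ℚ, r = ((C.u⁻¹ : ℚˣ) : ℚ) := ⟨_, rfl⟩
  rw [← hr] at h1
  have hr0 : r ≠ 0 := by rw [hr]; exact Units.ne_zero _
  have h2 : r ^ 12 * (D : ℚ) = (W'.Δ : ℚ) := by
    simpa using h1
  have h3 : (r.num : ℚ) ^ 12 * D = (W'.Δ : ℚ) * (r.den : ℚ) ^ 12 := by
    have hd : (r.den : ℚ) ≠ 0 := by exact_mod_cast r.den_nz
    have h5 : (r.num : ℚ) = r * r.den := by
      rw [eq_comm, Rat.mul_den_eq_num]
    rw [h5, ← h2]; ring
  have h3' : r.num ^ 12 * D = W'.Δ * (r.den : ℤ) ^ 12 := by exact_mod_cast h3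
  have hcop : IsCoprime ((r.den : ℤ) ^ 12) (r.num ^ 12) := by
    apply IsCoprime.pow
    rw [Int.isCoprime_iff_gcd_eq_one, Int.gcd_comm]
    have := r.reduced
    rwa [Int.gcd, Int.natAbs_natCast]
  have hdvd : ((r.den : ℤ) ^ 12) ∣ D := by
    apply hcop.dvd_of_dvd_mul_left
    rw [h3']
    exact Dvd.intro_left _ rfl
  have hdvd' : r.den ^ 12 ∣ D.natAbs := by
    have := Int.natAbs_dvd_natAbs.2 hdvd
    rwa [Int.natAbs_pow, Int.natAbs_natCast] at this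
  have hden : r.den = 1 := by
    have hpos := r.den_pos
    by_contra hc
    exact h12 r.den (by omega) hdvd'
  rw [hden] at h3'
  have h8 : W'.Δ = r.num ^ 12 * D := by rw [h3']; push_cast; ring
  rw [h8, abs_mul, abs_pow]
  have hn : 1 ≤ |r.num| := Int.one_le_abs (Rat.num_ne_zero.2 hr0)
  have : (1 : ℤ) ≤ |r.num| ^ 12 := one_le_pow₀ hn
  nlinarith [abs_nonneg D]

theorem min21 : IsGloballyMinimal E21 := by
  apply minimal_of
  · rw [delta21]; norm_num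
  · rw [delta21]
    intro k hk hdvd
    have h1 : 2 ^ 12 ≤ k ^ 12 := Nat.pow_le_pow_left hk 12
    have h2 := Nat.le_of_dvd (by norm_num) hdvd
    norm_num at h1 h2
    omega

theorem inv21 : E21.c₄ = 193 ∧ E21.c₆ = 575 ∧ E21.Δ = 3969 ∧
    affCount E21 2 = 3 ∧ affCount E21 3 = 2 ∧ affCount E21 7 = 8 ∧
    ∀ p : ℕ, p.Prime → affCount E21 p ≤ 2 * p := by
  refine ⟨?_, ?_, delta21, ?_, ?_, ?_, affCount_le_gen E21⟩
  · simp [WeierstrassCurve.c₄, WeierstrassCurve.b₂, WeierstrassCurve.b₄, E21]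
  · simp [WeierstrassCurve.c₆, WeierstrassCurve.b₂, WeierstrassCurve.b₄, WeierstrassCurve.b₆, E21]
  · rw [aff_eq21]; decide
  · rw [aff_eq21]; decide
  · rw [aff_eq21]; decide +kernel

/-- the points with `x = 5` -/
theorem tors21 (L : PeriodPair) (h2 : L.g₂ = 193 / 12) (h3 : L.g₃ = 575 / 216) (u : ℂ)
    (hu : u ∉ L.lattice) (hP : L.weierstrassP u = 61 / 12) :
    2 * u ∉ L.lattice ∧ L.weierstrassP (2 * u) = 25 / 12 ∧ 4 * u ∈ L.lattice := by
  apply tors_gen L (61 / 12) (25 / 12) _ _ _ u hu hP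
  · rw [h2, h3]; norm_num
  · rw [h2, h3]; norm_num
  · rw [h2, h3]; norm_num

/-- the points with `x = -1` -/
theorem tors21' (L : PeriodPair) (h2 : L.g₂ = 193 / 12) (h3 : L.g₃ = 575 / 216) (u : ℂ)
    (hu : u ∉ L.lattice) (hP : L.weierstrassP u = -11 / 12) :
    2 * u ∉ L.lattice ∧ L.weierstrassP (2 * u) = 25 / 12 ∧ 4 * u ∈ L.lattice := by
  apply tors_gen L (-11 / 12) (25 / 12) _ _ _ u hu hP
  · rw [h2, h3]; norm_num
  · rw [h2, h3]; norm_num
  · rw [h2, h3]; norm_num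

/-- the period lattice -/
theorem lat21 : ∃ (L : PeriodPair) (Op Om : ℝ), 0 < Op ∧ 0 < Om ∧
    L.g₂ = 193 / 12 ∧ L.g₃ = 575 / 216 ∧
    ∀ w : ℂ, w ∈ L.lattice ↔ ∃ a b : ℤ, w = a * Op + b * Om * Complex.I := by
  obtain ⟨L, Op, Om, h1, h2, h3, h4, h5⟩ := rect_lattice (193 / 12) (575 / 216) (by norm_num)
  refine ⟨L, Op, Om, h1, h2, ?_, ?_, h5⟩
  · rw [h3]; push_cast; ring
  · rw [h4]; push_cast; ring

end Run7.h209.P15
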