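import Pool.Agent.W97.MT.Stm

/-!
# Project P15, piece (B1b): the coefficient of `q^p` modulo `p`, for every Weierstrass curve

Generalisation of `Pool/Agent/W351/MT/HASSE.lean` (there for `y² = 4x³ + 13x² + 32x`).
-/

set_option autoImplicit false

namespace Run7.h209.P15

open Finset Pool.Agent.W97.MT

/-- the cubic polynomial -/
noncomputable def Pt {F : Type} [Field F] (A B C : F) : Polynomial F :=
  Polynomial.C 4 * Polynomial.X ^ 3 + Polynomial.C A * Polynomial.X ^ 2 +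
    Polynomial.C B * Polynomial.X + Polynomial.C C

theorem Pt_eval {F : Type} [Field F] (A B C x : F) :
    (Pt A B C).eval x = 4 * x ^ 3 + A * x ^ 2 + B * x + C := by
  simp [Pt]

theorem Pt_deg {F : Type} [Field F] (A B C : F) (e : ℕ) :
    ((Pt A B C) ^ e).natDegree < 3 * e + 1 := by
  have h1 : (Pt A B C).natDegree ≤ 3 := by
    unfold Pt
    compute_degree
  have h2 := Polynomial.natDegree_pow_le (p := Pt A B C) (n := e)
  have h3 : e * (Pt A B C).natDegree ≤ e * 3 := Nat.mul_le_mul_left _ h1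
  omega

/-- homogenisation in the power series ring -/
theorem homog {F : Type} [Field F] (A B C : F) (e : ℕ) (ξ : PowerSeries F) :
    (4 * ξ ^ 3 + PowerSeries.C A * PowerSeries.X ^ 2 * ξ ^ 2 +
      PowerSeries.C B * PowerSeries.X ^ 4 * ξ + PowerSeries.C C * PowerSeries.X ^ 6) ^ e =
      ∑ k ∈ range (3 * e + 1), PowerSeries.C (((Pt A B C) ^ e).coeff k) *
        (ξ ^ k * PowerSeries.X ^ (6 * e - 2 * k)) := by
  let K := FractionRing (PowerSeries F)
  let f : PowerSeries F →+* K := algebraMap (PowerSeries F) K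
  have hf : Function.Injective f := IsFractionRing.injective (PowerSeries F) K
  apply hf
  have hX : f PowerSeries.X ≠ 0 := by
    intro h
    apply PowerSeries.X_ne_zero (R := F)
    apply hf
    rw [h, map_zero]
  obtain ⟨t, ht⟩ : ∃ t : K, f ξ = f PowerSeries.X ^ 2 * t :=
    ⟨f ξ / f PowerSeries.X ^ 2, by rw [mul_comm, div_mul_cancel₀ _ (pow_ne_zero 2 hX)]⟩
  let g : F →+* K := f.comp (PowerSeries.C (R := F))
  have hg : ∀ a : F, g a = f (PowerSeries.C a) := fun a => rfl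
  have h1 : Polynomial.eval₂ g t ((Pt A B C) ^ e) =
      (4 * t ^ 3 + g A * t ^ 2 + g B * t + g C) ^ e := by
    rw [Polynomial.eval₂_pow]
    congr 1
    simp only [Pt, Polynomial.eval₂_add, Polynomial.eval₂_mul, Polynomial.eval₂_C,
      Polynomial.eval₂_pow, Polynomial.eval₂_X]
    have e4 : g 4 = 4 := map_ofNat g 4
    rw [e4]
  rw [Polynomial.eval₂_eq_sum_range' g (Pt_deg A B C e)] at h1
  simp only [map_pow, map_add, map_mul, map_sum, ht, map_ofNat]
  rw [← hg, ← hg, ← hg]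
  have h2 : (4 * (f PowerSeries.X ^ 2 * t) ^ 3 + g A * f PowerSeries.X ^ 2 *
      (f PowerSeries.X ^ 2 * t) ^ 2 + g B * f PowerSeries.X ^ 4 * (f PowerSeries.X ^ 2 * t) +
      g C * f PowerSeries.X ^ 6) ^ e =
      f PowerSeries.X ^ (6 * e) * (4 * t ^ 3 + g A * t ^ 2 + g B * t + g C) ^ e := by
    rw [pow_mul, ← mul_pow]
    congr 1
    ring
  rw [h2, ← h1, mul_sum]
  apply sum_congr rfl
  intro k hk
  rw [mem_range] at hk
  have h3 : f PowerSeries.X ^ (6 * e) = f PowerSeries.X ^ (6 * e - 2 * k) *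
      f PowerSeries.X ^ (2 * k) := by
    rw [← pow_add]
    congr 1
    omega
  rw [h3, hg, mul_pow, ← pow_mul]
  ring

theorem coeff_pow_char (p : ℕ) [Fact p.Prime] (φ σ : PowerSeries (ZMod p))
    (hσ : PowerSeries.constantCoeff σ = -2) :
    PowerSeries.coeff (p - 1) (φ * σ ^ p) = -2 * PowerSeries.coeff (p - 1) φ := by
  obtain ⟨τ, hτ⟩ : ∃ τ : PowerSeries (ZMod p), σ = PowerSeries.C (-2) + PowerSeries.X * τ := by
    have h1 : PowerSeries.X ∣ σ - PowerSeries.C (-2) := by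
      rw [PowerSeries.X_dvd_iff, map_sub, hσ, PowerSeries.constantCoeff_C, sub_self]
    obtain ⟨τ, h2⟩ := h1
    exact ⟨τ, by rw [← h2]; ring⟩
  have : CharP (PowerSeries (ZMod p)) p := by
    refine charP_of_injective_ringHom (f := (PowerSeries.C : ZMod p →+* PowerSeries (ZMod p))) ?_ p
    exact PowerSeries.C_injective
  have h1 : σ ^ p = PowerSeries.C (-2) + PowerSeries.X ^ p * τ ^ p := by
    rw [hτ, add_pow_char, mul_pow, ← map_pow, ZMod.pow_card]
  rw [h1, mul_add, map_add]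
  have h2 : φ * (PowerSeries.X ^ p * τ ^ p) = (φ * τ ^ p) * PowerSeries.X ^ p := by ring
  rw [h2, PowerSeries.coeff_mul_X_pow']
  have hp1 := (Fact.out : p.Prime).one_lt
  rw [if_neg (by omega), add_zero, mul_comm φ, PowerSeries.coeff_C_mul]

theorem term_zero (p : ℕ) [Fact p.Prime] (ξ : PowerSeries (ZMod p)) (k : ℕ)
    (h1 : p ≤ k) (h2 : k + 1 < 2 * p) :
    PowerSeries.coeff (2 * k - 2 * (p - 1))
      (ξ ^ k * (PowerSeries.X * PowerSeries.derivative (ZMod p) ξ - 2 * ξ)) = 0 := by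
  have hk : ((k + 1 : ℕ) : ZMod p) ≠ 0 := by
    intro h
    rw [ZMod.natCast_eq_zero_iff] at h
    obtain ⟨c, hc⟩ := h
    have h3 : 1 < c := by
      by_contra hcon
      have : c = 0 ∨ c = 1 := by omega
      rcases this with h | h
      · subst h
        omega
      · subst h
        omega
    have h4 : p * 2 ≤ p * c := Nat.mul_le_mul_left _ h3
    omega
  have h3 : PowerSeries.C ((k + 1 : ℕ) : ZMod p) *
      (ξ ^ k * (PowerSeries.X * PowerSeries.derivative (ZMod p) ξ - 2 * ξ)) =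
      PowerSeries.X * PowerSeries.derivative (ZMod p) (ξ ^ (k + 1)) -
        PowerSeries.C (2 * ((k + 1 : ℕ) : ZMod p)) * ξ ^ (k + 1) := by
    have e1 : PowerSeries.derivative (ZMod p) (ξ ^ (k + 1)) =
        ((k + 1 : ℕ) : PowerSeries (ZMod p)) * ξ ^ k * PowerSeries.derivative (ZMod p) ξ := by
      rw [Derivation.leibniz_pow]
      simp [nsmul_eq_mul, smul_eq_mul]
      ring
    rw [e1, map_mul, map_natCast, map_ofNat]
    ring
  have h4 := congrArg (PowerSeries.coeff (2 * k - 2 * (p - 1))) h3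
  rw [PowerSeries.coeff_C_mul, map_sub, PowerSeries.coeff_C_mul] at h4
  obtain ⟨m, hm⟩ : ∃ m, 2 * k - 2 * (p - 1) = m + 1 := ⟨2 * k - 2 * (p - 1) - 1, by
    have := (Fact.out : p.Prime).one_lt
    omega⟩
  rw [hm] at h4 ⊢
  rw [PowerSeries.coeff_succ_X_mul, PowerSeries.coeff_derivative] at h4
  have h5 : PowerSeries.coeff (m + 1) (ξ ^ (k + 1)) * ((m : ZMod p) + 1) -
      2 * ((k + 1 : ℕ) : ZMod p) * PowerSeries.coeff (m + 1) (ξ ^ (k + 1)) = 0 := by
    have h6 : ((m : ZMod p) + 1) = 2 * ((k + 1 : ℕ) : ZMod p) := by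
      have h7 : m + 1 + 2 * p = 2 * (k + 1) := by
        have := (Fact.out : p.Prime).one_lt
        omega
      have h8 := congrArg (fun n : ℕ => (n : ZMod p)) h7
      simp only [Nat.cast_add, Nat.cast_mul, CharP.cast_eq_zero, mul_zero, add_zero,
        Nat.cast_one, Nat.cast_ofNat] at h8 ⊢
      exact h8
    rw [h6]
    ring
  rw [h5] at h4
  rcases mul_eq_zero.mp h4 with h | h
  · exact absurd h hk
  · exact h

theorem coeff_phi (p : ℕ) [Fact p.Prime] (hp : p ≠ 2) (A B C : ZMod p) (φ ξ σ : PowerSeries (ZMod p))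
    (hξ : PowerSeries.constantCoeff ξ = 1) (hσ : PowerSeries.constantCoeff σ = -2)
    (h1 : PowerSeries.X * PowerSeries.derivative (ZMod p) ξ - 2 * ξ = φ * σ)
    (h2 : σ ^ 2 = 4 * ξ ^ 3 + PowerSeries.C A * PowerSeries.X ^ 2 * ξ ^ 2 +
      PowerSeries.C B * PowerSeries.X ^ 4 * ξ + PowerSeries.C C * PowerSeries.X ^ 6) :
    PowerSeries.coeff (p - 1) φ = ((Pt A B C) ^ ((p - 1) / 2)).coeff (p - 1) := by
  have hpp := (Fact.out : p.Prime)
  have hodd : p % 2 = 1 := by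
    rcases hpp.eq_two_or_odd with h | h
    · exact absurd h hp
    · exact h
  obtain ⟨e, he⟩ : ∃ e, p = 2 * e + 1 := ⟨(p - 1) / 2, by omega⟩
  have he2 : (p - 1) / 2 = e := by omega
  have he0 : 0 < e := by
    have := hpp.one_lt
    omega
  rw [he2]
  have h3 : φ * σ ^ p = (PowerSeries.X * PowerSeries.derivative (ZMod p) ξ - 2 * ξ) *
      (σ ^ 2) ^ e := by
    rw [h1, ← pow_mul, mul_assoc, ← pow_succ', ← he]
  have h4 := coeff_pow_char p φ σ hσ
  rw [h3, h2, homog A B C e ξ, mul_sum, map_sum] at h4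
  have h5 : ∀ k ∈ range (3 * e + 1), k ≠ p - 1 → PowerSeries.coeff (p - 1)
      ((PowerSeries.X * PowerSeries.derivative (ZMod p) ξ - 2 * ξ) *
        (PowerSeries.C (((Pt A B C) ^ e).coeff k) *
        (ξ ^ k * PowerSeries.X ^ (6 * e - 2 * k)))) = 0 := by
    intro k hk hk1
    rw [mem_range] at hk
    have e1 : (PowerSeries.X * PowerSeries.derivative (ZMod p) ξ - 2 * ξ) *
        (PowerSeries.C (((Pt A B C) ^ e).coeff k) *
        (ξ ^ k * PowerSeries.X ^ (6 * e - 2 * k))) =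
        PowerSeries.C (((Pt A B C) ^ e).coeff k) *
        ((ξ ^ k * (PowerSeries.X * PowerSeries.derivative (ZMod p) ξ - 2 * ξ)) *
          PowerSeries.X ^ (6 * e - 2 * k)) := by ring
    rw [e1, PowerSeries.coeff_C_mul, PowerSeries.coeff_mul_X_pow']
    split_ifs with h6
    · have h7 : p - 1 - (6 * e - 2 * k) = 2 * k - 2 * (p - 1) := by omega
      rw [h7, term_zero p ξ k (by omega) (by omega), mul_zero]
    · rw [mul_zero]
  rw [sum_eq_single_of_mem (p - 1) (by rw [mem_range]; omega) h5] at h4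
  have e1 : (PowerSeries.X * PowerSeries.derivative (ZMod p) ξ - 2 * ξ) *
      (PowerSeries.C (((Pt A B C) ^ e).coeff (p - 1)) *
      (ξ ^ (p - 1) * PowerSeries.X ^ (6 * e - 2 * (p - 1)))) =
      PowerSeries.C (((Pt A B C) ^ e).coeff (p - 1)) *
      ((ξ ^ (p - 1) * (PowerSeries.X * PowerSeries.derivative (ZMod p) ξ - 2 * ξ)) *
        PowerSeries.X ^ (6 * e - 2 * (p - 1))) := by ring
  rw [e1, PowerSeries.coeff_C_mul, PowerSeries.coeff_mul_X_pow', if_pos (by omega)] at h4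
  have h7 : p - 1 - (6 * e - 2 * (p - 1)) = 0 := by omega
  rw [h7, PowerSeries.coeff_zero_eq_constantCoeff_apply] at h4
  have h8 : PowerSeries.constantCoeff (ξ ^ (p - 1) *
      (PowerSeries.X * PowerSeries.derivative (ZMod p) ξ - 2 * ξ)) = -2 := by
    rw [map_mul, map_pow, map_sub, map_mul, map_mul, hξ, PowerSeries.constantCoeff_X, map_ofNat]
    ring
  rw [h8] at h4
  have h9 : (-2 : ZMod p) ≠ 0 := by
    intro h
    have h10 : ((2 : ℕ) : ZMod p) = 0 := by
      have : (2 : ZMod p) = 0 := by linear_combination -h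
      exact_mod_cast this
    rw [ZMod.natCast_eq_zero_iff] at h10
    have := Nat.le_of_dvd (by omega) h10
    omega
  have h10 : (-2 : ZMod p) * PowerSeries.coeff (p - 1) φ =
      (-2) * ((Pt A B C) ^ e).coeff (p - 1) := by
    rw [← h4]
    ring
  exact mul_left_cancel₀ h9 h10

theorem sum_pow_zmod (p : ℕ) [Fact p.Prime] (hp : p ≠ 2) (k : ℕ) (hk : k < 3 * ((p - 1) / 2) + 1) :
    ∑ x : ZMod p, x ^ k = if k = p - 1 then -1 else 0 := by
  have hpp := (Fact.out : p.Prime)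
  have hodd : p % 2 = 1 := by
    rcases hpp.eq_two_or_odd with h | h
    · exact absurd h hp
    · exact h
  have hp1 := hpp.one_lt
  rcases lt_trichotomy k (p - 1) with h | h | h
  · rw [if_neg (by omega)]
    apply FiniteField.sum_pow_lt_card_sub_one
    rw [ZMod.card]
    exact h
  · rw [if_pos h]
    subst h
    have h1 : ∀ x : ZMod p, x ^ (p - 1) = 1 - (if x = 0 then 1 else 0) := by
      intro x
      by_cases hx : x = 0
      · rw [if_pos hx, hx, zero_pow (by omega)]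
        ring
      · rw [if_neg hx, ZMod.pow_card_sub_one_eq_one hx]
        ring
    rw [sum_congr rfl (fun x _ => h1 x), sum_sub_distrib, sum_ite_eq' univ (0 : ZMod p)]
    simp
  · rw [if_neg (by omega)]
    have h1 : ∀ x : ZMod p, x ^ k = x ^ (k - (p - 1)) := by
      intro x
      have h2 : k = p + (k - p) := by omega
      have h3 : k - (p - 1) = 1 + (k - p) := by omega
      rw [h3]
      conv_lhs => rw [h2]
      rw [pow_add, ZMod.pow_card, pow_add, pow_one]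
    rw [sum_congr rfl (fun x _ => h1 x)]
    apply FiniteField.sum_pow_lt_card_sub_one
    rw [ZMod.card]
    omega

theorem sum_Pt (p : ℕ) [Fact p.Prime] (hp : p ≠ 2) (A B C : ZMod p) :
    ∑ x : ZMod p, (4 * x ^ 3 + A * x ^ 2 + B * x + C) ^ ((p - 1) / 2) =
      - ((Pt A B C) ^ ((p - 1) / 2)).coeff (p - 1) := by
  have h1 : ∀ x : ZMod p, (4 * x ^ 3 + A * x ^ 2 + B * x + C) ^ ((p - 1) / 2) =
      ∑ k ∈ range (3 * ((p - 1) / 2) + 1), ((Pt A B C) ^ ((p - 1) / 2)).coeff k * x ^ k := by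
    intro x
    rw [← Pt_eval, ← Polynomial.eval_pow, Polynomial.eval_eq_sum_range' (Pt_deg _ _ _ _)]
  rw [sum_congr rfl (fun x _ => h1 x), sum_comm]
  have h2 : ∀ k ∈ range (3 * ((p - 1) / 2) + 1),
      ∑ x : ZMod p, ((Pt A B C) ^ ((p - 1) / 2)).coeff k * x ^ k =
        if k = p - 1 then - ((Pt A B C) ^ ((p - 1) / 2)).coeff k else 0 := by
    intro k hk
    rw [mem_range] at hk
    rw [← mul_sum, sum_pow_zmod p hp k hk]
    split_ifs
    · ring
    · ring
  rw [sum_congr rfl h2, sum_ite_eq' , if_pos]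
  rw [mem_range]
  have hpp := (Fact.out : p.Prime)
  have hp1 := hpp.one_lt
  rcases hpp.eq_two_or_odd with h | h
  · exact absurd h hp
  · omega

theorem affCount_eq (W : WeierstrassCurve ℤ) (r : ℤ) (p : ℕ) [Fact p.Prime] (hp : p ≠ 2) :
    ((affCount W p : ℕ) : ZMod p) =
      ∑ x : ZMod p, (4 * x ^ 3 + ((W.b₂ + 12 * r : ℤ) : ZMod p) * x ^ 2 +
        ((12 * r ^ 2 + 2 * W.b₂ * r + 2 * W.b₄ : ℤ) : ZMod p) * x +
        ((4 * r ^ 3 + W.b₂ * r ^ 2 + 2 * W.b₄ * r + W.b₆ : ℤ) : ZMod p)) ^ ((p - 1) / 2) := by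
  classical
  have hpp := (Fact.out : p.Prime)
  have hp1 := hpp.one_lt
  have hodd : p % 2 = 1 := by
    rcases hpp.eq_two_or_odd with h | h
    · exact absurd h hp
    · exact h
  have hchar : ringChar (ZMod p) ≠ 2 := by
    rw [ZMod.ringChar_zmod_n]
    exact hp
  have h2 : (2 : ZMod p) ≠ 0 := by
    intro h
    have h10 : ((2 : ℕ) : ZMod p) = 0 := by exact_mod_cast h
    rw [ZMod.natCast_eq_zero_iff] at h10
    have := Nat.le_of_dvd (by omega) h10
    omega
  obtain ⟨A, hA⟩ : ∃ A : ZMod p, A = ((W.b₂ + 12 * r : ℤ) : ZMod p) := ⟨_, rfl⟩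
  obtain ⟨B, hB⟩ : ∃ B : ZMod p, B = ((12 * r ^ 2 + 2 * W.b₂ * r + 2 * W.b₄ : ℤ) : ZMod p) :=
    ⟨_, rfl⟩
  obtain ⟨C, hC⟩ : ∃ C : ZMod p, C =
    ((4 * r ^ 3 + W.b₂ * r ^ 2 + 2 * W.b₄ * r + W.b₆ : ℤ) : ZMod p) := ⟨_, rfl⟩
  rw [← hA, ← hB, ← hC]
  have hA' : A = (W.a₁ : ZMod p) ^ 2 + 4 * (W.a₂ : ZMod p) + 12 * (r : ZMod p) := by
    rw [hA]; simp only [WeierstrassCurve.b₂]; push_cast; ring
  have hB' : B = 12 * (r : ZMod p) ^ 2 + 2 * ((W.a₁ : ZMod p) ^ 2 + 4 * (W.a₂ : ZMod p)) * r +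
      2 * (2 * (W.a₄ : ZMod p) + W.a₁ * W.a₃) := by
    rw [hB]; simp only [WeierstrassCurve.b₂, WeierstrassCurve.b₄]; push_cast; ring
  have hC' : C = 4 * (r : ZMod p) ^ 3 + ((W.a₁ : ZMod p) ^ 2 + 4 * (W.a₂ : ZMod p)) * r ^ 2 +
      2 * (2 * (W.a₄ : ZMod p) + W.a₁ * W.a₃) * r + ((W.a₃ : ZMod p) ^ 2 + 4 * W.a₆) := by
    rw [hC]
    simp only [WeierstrassCurve.b₂, WeierstrassCurve.b₄, WeierstrassCurve.b₆]
    push_cast; ring
  -- an equivalence of the point sets
  have e1 : affCount W p = Fintype.card {P : ZMod p × ZMod p //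
      P.2 ^ 2 = 4 * P.1 ^ 3 + A * P.1 ^ 2 + B * P.1 + C} := by
    unfold affCount
    rw [← Nat.card_eq_fintype_card]
    refine Nat.card_congr ⟨fun P => ⟨(P.1.1 - r, 2 * P.1.2 + W.a₁ * P.1.1 + W.a₃), ?_⟩,
      fun P => ⟨(P.1.1 + r, (P.1.2 - W.a₁ * (P.1.1 + r) - W.a₃) / 2), ?_⟩, ?_, ?_⟩
    · have h3 := P.2
      rw [WeierstrassCurve.Affine.equation_iff] at h3
      simp only [WeierstrassCurve.map_a₁, WeierstrassCurve.map_a₂, WeierstrassCurve.map_a₃,
        WeierstrassCurve.map_a₄, WeierstrassCurve.map_a₆, eq_intCast] at h3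
      simp only
      rw [hA', hB', hC']
      linear_combination 4 * h3
    · have h3 := P.2
      rw [WeierstrassCurve.Affine.equation_iff]
      simp only [WeierstrassCurve.map_a₁, WeierstrassCurve.map_a₂, WeierstrassCurve.map_a₃,
        WeierstrassCurve.map_a₄, WeierstrassCurve.map_a₆, eq_intCast]
      field_simp
      linear_combination h3 + P.1.1 ^ 2 * hA' + P.1.1 * hB' + hC'
    · intro P
      apply Subtype.ext
      apply Prod.ext
      · simp
      · simp only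
        field_simp
        ring
    · intro P
      apply Subtype.ext
      apply Prod.ext
      · simp
      · simp only
        field_simp
        ring
  rw [e1]
  have e2 : Fintype.card {P : ZMod p × ZMod p //
      P.2 ^ 2 = 4 * P.1 ^ 3 + A * P.1 ^ 2 + B * P.1 + C} =
      ∑ x : ZMod p, Fintype.card {y : ZMod p // y ^ 2 = 4 * x ^ 3 + A * x ^ 2 + B * x + C} := by
    rw [← Fintype.card_sigma]
    exact Fintype.card_congr ⟨fun P => ⟨P.1.1, P.1.2, P.2⟩, fun P => ⟨(P.1, P.2.1), P.2.2⟩,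
      fun _ => rfl, fun _ => rfl⟩
  rw [e2, Nat.cast_sum]
  have e3 : ∀ x : ZMod p,
      ((Fintype.card {y : ZMod p // y ^ 2 = 4 * x ^ 3 + A * x ^ 2 + B * x + C} : ℕ) : ZMod p) =
      1 + (4 * x ^ 3 + A * x ^ 2 + B * x + C) ^ ((p - 1) / 2) := by
    intro x
    have h3 := quadraticChar_card_sqrts hchar (4 * x ^ 3 + A * x ^ 2 + B * x + C)
    have h4 := quadraticChar_eq_pow_of_char_ne_two' hchar (4 * x ^ 3 + A * x ^ 2 + B * x + C)
    rw [ZMod.card] at h4
    have h5 : p / 2 = (p - 1) / 2 := by omega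
    rw [h5] at h4
    rw [← h4]
    have h6 : Fintype.card {y : ZMod p // y ^ 2 = 4 * x ^ 3 + A * x ^ 2 + B * x + C} =
        ({y : ZMod p | y ^ 2 = 4 * x ^ 3 + A * x ^ 2 + B * x + C}.toFinset).card := by
      rw [Set.toFinset_card]
      rfl
    rw [h6]
    have h7 := congrArg (fun n : ℤ => (n : ZMod p)) h3
    simp only [Int.cast_natCast, Int.cast_add, Int.cast_one] at h7
    rw [h7]
    ring
  rw [sum_congr rfl (fun x _ => e3 x), sum_add_distrib]
  simp

/-- **HASSE** for every Weierstrass curve. `ξ = q² (x - r)`, `σ = q³ (2 y + a₁ x + a₃)`,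
`q dx/dq = (2 y + a₁ x + a₃) q φ`. -/
theorem hasse (W : WeierstrassCurve ℤ) (r : ℤ) (p : ℕ) [Fact p.Prime] (hp : p ≠ 2)
    (φ ξ σ : PowerSeries (ZMod p)) (hξ : PowerSeries.constantCoeff ξ = 1)
    (hσ : PowerSeries.constantCoeff σ = -2)
    (h1 : PowerSeries.X * PowerSeries.derivative (ZMod p) ξ - 2 * ξ = φ * σ)
    (h2 : σ ^ 2 = 4 * ξ ^ 3 +
      PowerSeries.C ((W.b₂ + 12 * r : ℤ) : ZMod p) * PowerSeries.X ^ 2 * ξ ^ 2 +
      PowerSeries.C ((12 * r ^ 2 + 2 * W.b₂ * r + 2 * W.b₄ : ℤ) : ZMod p) *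
        PowerSeries.X ^ 4 * ξ +
      PowerSeries.C ((4 * r ^ 3 + W.b₂ * r ^ 2 + 2 * W.b₄ * r + W.b₆ : ℤ) : ZMod p) *
        PowerSeries.X ^ 6) :
    PowerSeries.coeff (p - 1) φ = (ap W p : ZMod p) := by
  rw [coeff_phi p hp _ _ _ φ ξ σ hξ hσ h1 h2]
  unfold ap
  rw [Int.cast_sub, Int.cast_natCast, Int.cast_natCast, affCount_eq W r p hp, sum_Pt p hp]
  simp

end Run7.h209.P15
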