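import Pool.Agent.Run7.h741.MF.Stm
import Pool.Agent.W646.MT.LAT

/-!
# Project P15, statement M4 (second part): the period lattice of the curve 15a1

Rectangular lattices `ℤ + i t ℤ`, `t ≥ 1`; intermediate value theorem between `t = 1` and `t = ∞`.
-/

set_option autoImplicit false

open Set Filter Topology

namespace Run7.h209.P15

open Pool.Agent.H285R3.Str Pool.Agent.W520
open Pool.Agent.W646.MT (not_both G_scale scale mem_scale scale_g2 scale_g3)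

/-- the second period -/
noncomputable def ta (t : ℝ) : ℂ := ⟨0, t⟩

theorem ta_eq (t : ℝ) : ta t = t * Complex.I := by
  apply Complex.ext <;> simp [ta]

/-- the rectangular lattice -/
noncomputable def Lr (t : ℝ) (ht : t ≠ 0) : PeriodPair where
  ω₁ := 1
  ω₂ := ta t
  indep := by
    rw [LinearIndependent.pair_iff]
    intro a b h
    have h1 := congrArg Complex.im h
    have h2 := congrArg Complex.re h
    simp [ta] at h1 h2
    have hb : b = 0 := h1.resolve_right ht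
    exact ⟨h2, hb⟩

section

variable {t : ℝ} {ht : t ≠ 0}

theorem mem_Lr {z : ℂ} : z ∈ (Lr t ht).lattice ↔ ∃ m n : ℤ, (m : ℂ) * 1 + n * ta t = z :=
  PeriodPair.mem_lattice

theorem Lr_conj : ∀ l ∈ (Lr t ht).lattice, (starRingEnd ℂ) l ∈ (Lr t ht).lattice := by
  intro l hl
  obtain ⟨m, n, rfl⟩ := mem_Lr.1 hl
  have h3 : (starRingEnd ℂ) (ta t) = -ta t := by
    apply Complex.ext
    · simp [ta]
    · simp [ta]
  refine mem_Lr.2 ⟨m, -n, ?_⟩
  rw [map_add, map_mul, map_mul, h3, map_one, map_intCast, map_intCast]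
  push_cast
  ring

theorem Lr_real (n : ℕ) : (Lr t ht).G n = (((Lr t ht).G n).re : ℂ) :=
  real_of_conj (G_conj _ Lr_conj n)

/-- parity of coordinates -/
theorem half_mem {a b : ℤ} (h : (a : ℂ) / 2 + b * ta t / 2 ∈ (Lr t ht).lattice) :
    2 ∣ a ∧ 2 ∣ b := by
  obtain ⟨m, n, h⟩ := mem_Lr.1 h
  have h1 := congrArg Complex.im h
  have h2 := congrArg Complex.re h
  simp [ta] at h1 h2
  have e1 : ((2 * n - b : ℤ) : ℝ) * t = 0 := by
    push_cast
    linarith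
  have e2 : (2 * n - b : ℤ) = 0 := by
    have := (mul_eq_zero.1 e1).resolve_right ht
    exact_mod_cast this
  have e3 : ((2 * m - a : ℤ) : ℝ) = 0 := by
    push_cast
    linarith
  have e4 : (2 * m - a : ℤ) = 0 := by exact_mod_cast e3
  exact ⟨⟨m, by omega⟩, ⟨n, by omega⟩⟩

theorem Lr_halves : Halves (Lr t ht) (1 / 2) (ta t / 2) := by
  refine ⟨mem_Lr.2 ⟨1, 0, by push_cast; ring⟩, mem_Lr.2 ⟨0, 1, by push_cast; ring⟩, ?_, ?_, ?_⟩
  · intro h
    have := (half_mem (a := 1) (b := 0) (by simpa using h)).1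
    omega
  · intro h
    have := (half_mem (a := 0) (b := 1) (by simpa using h)).2
    omega
  · intro h
    have := (half_mem (a := 1) (b := 1) (by simpa using h)).2
    omega

end

theorem G_eq (t : ℝ) (ht : t ≠ 0) (k : ℕ) : (Lr t ht).G k =
    ∑' p : ℤ × ℤ, (((p.1 : ℂ) + p.2 * ta t) ^ k)⁻¹ := by
  rw [PeriodPair.G, ← (Lr t ht).latticeEquivProd.symm.toEquiv.tsum_eq]
  refine tsum_congr fun p => ?_
  have h := (Lr t ht).latticeEquiv_symm_apply p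
  change ((((Lr t ht).latticeEquivProd.symm p).1) ^ k)⁻¹ = _
  rw [h]
  simp [Lr]

theorem G_summable (t : ℝ) (ht : t ≠ 0) (k : ℕ) (hk : 2 < k) :
    Summable (fun p : ℤ × ℤ => (((p.1 : ℂ) + p.2 * ta t) ^ k)⁻¹) := by
  have h := ((Lr t ht).hasSum_sumInvPow 0 hk).summable
  rw [← (Lr t ht).latticeEquivProd.symm.toEquiv.summable_iff] at h
  refine h.congr fun p => ?_
  have h1 := (Lr t ht).latticeEquiv_symm_apply p
  change ((((Lr t ht).latticeEquivProd.symm p).1 - 0) ^ k)⁻¹ = _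
  rw [h1]
  simp [Lr]

theorem sq_norm_pt (m n : ℤ) (t : ℝ) :
    ‖(m : ℂ) + n * ta t‖ ^ 2 = (m : ℝ) ^ 2 + ((n : ℝ) * t) ^ 2 := by
  rw [← Complex.normSq_eq_norm_sq, Complex.normSq_apply]
  simp [ta]
  ring

theorem pt_ne {m n : ℤ} {t : ℝ} (ht : t ≠ 0) (h : (m, n) ≠ (0, 0)) :
    (m : ℂ) + n * ta t ≠ 0 := by
  intro h0
  have h1 := sq_norm_pt m n t
  rw [h0, norm_zero] at h1
  have h2 : (m : ℝ) ^ 2 = 0 ∧ ((n : ℝ) * t) ^ 2 = 0 := by
    constructor <;> nlinarith [sq_nonneg (m : ℝ), sq_nonneg ((n : ℝ) * t)]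
  have h3 : (n : ℝ) = 0 := by
    have := pow_eq_zero_iff (two_ne_zero) |>.1 h2.2
    exact (mul_eq_zero.1 this).resolve_right ht
  have h4 : (m : ℝ) = 0 := pow_eq_zero_iff (two_ne_zero) |>.1 h2.1
  apply h
  rw [Prod.mk.injEq]
  exact ⟨by exact_mod_cast h4, by exact_mod_cast h3⟩

theorem term_le (k : ℕ) (p : ℤ × ℤ) {t : ℝ} (ht : 1 ≤ t) :
    ‖(((p.1 : ℂ) + p.2 * ta t) ^ k)⁻¹‖ ≤ ‖(((p.1 : ℂ) + p.2 * ta 1) ^ k)⁻¹‖ := by
  obtain ⟨m, n⟩ := p
  by_cases h : (m, n) = (0, 0)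
  · rw [Prod.mk.injEq] at h
    obtain ⟨rfl, rfl⟩ := h
    simp
  · rw [norm_inv, norm_inv, norm_pow, norm_pow]
    have h1 : 0 < ‖(m : ℂ) + n * ta 1‖ := norm_pos_iff.2 (pt_ne one_ne_zero h)
    apply inv_anti₀ (pow_pos h1 k)
    apply pow_le_pow_left₀ h1.le
    apply le_of_sq_le_sq _ (norm_nonneg _)
    rw [sq_norm_pt, sq_norm_pt]
    have h3 : (1 : ℝ) ^ 2 ≤ t ^ 2 := by nlinarith
    have h4 : ((n : ℝ) * 1) ^ 2 ≤ ((n : ℝ) * t) ^ 2 := by
      rw [mul_pow, mul_pow]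
      exact mul_le_mul_of_nonneg_left h3 (sq_nonneg _)
    linarith

/-- continuity -/
theorem G_cont (k : ℕ) (hk : 2 < k) : ContinuousOn
    (fun t : ℝ => ∑' p : ℤ × ℤ, (((p.1 : ℂ) + p.2 * ta t) ^ k)⁻¹) (Ici 1) := by
  refine continuousOn_tsum (u := fun p : ℤ × ℤ => ‖(((p.1 : ℂ) + p.2 * ta 1) ^ k)⁻¹‖) ?_
    (G_summable 1 one_ne_zero k hk).norm ?_
  · rintro ⟨m, n⟩
    by_cases h : (m, n) = (0, 0)
    · rw [Prod.mk.injEq] at h
      obtain ⟨rfl, rfl⟩ := h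
      simpa using continuousOn_const
    · have hc : Continuous ta := by
        have : ta = fun t : ℝ => (t : ℂ) * Complex.I := funext ta_eq
        rw [this]
        fun_prop
      apply ContinuousOn.inv₀
      · fun_prop
      · intro t ht
        apply pow_ne_zero
        have ht' : (1 : ℝ) ≤ t := ht
        exact pt_ne (by linarith) h
  · intro p t ht
    exact term_le k p ht

/-- the limit for `t → ∞` -/
theorem G_lim (k : ℕ) (hk : 2 < k) : Tendsto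
    (fun t : ℝ => ∑' p : ℤ × ℤ, (((p.1 : ℂ) + p.2 * ta t) ^ k)⁻¹) atTop
    (𝓝 (∑' p : ℤ × ℤ, if p.2 = 0 then ((p.1 : ℂ) ^ k)⁻¹ else 0)) := by
  refine tendsto_tsum_of_dominated_convergence
    (bound := fun p : ℤ × ℤ => ‖(((p.1 : ℂ) + p.2 * ta 1) ^ k)⁻¹‖)
    (G_summable 1 one_ne_zero k hk).norm ?_ ?_
  · rintro ⟨m, n⟩
    by_cases hn : n = 0
    · subst hn
      simpa using tendsto_const_nhds
    · rw [if_neg hn]
      rw [tendsto_zero_iff_norm_tendsto_zero]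
      have hk0 : k ≠ 0 := by omega
      have h1 : Tendsto (fun t : ℝ => ((t : ℝ) ^ k)⁻¹) atTop (𝓝 0) :=
        (tendsto_pow_atTop hk0).inv_tendsto_atTop
      refine squeeze_zero' (Eventually.of_forall fun t => norm_nonneg _) ?_ h1
      filter_upwards [eventually_ge_atTop (1 : ℝ)] with t ht
      rw [norm_inv, norm_pow]
      have ht0 : (0 : ℝ) < t := by linarith
      apply inv_anti₀ (pow_pos ht0 k)
      apply pow_le_pow_left₀ ht0.le
      apply le_of_sq_le_sq _ (norm_nonneg _)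
      rw [sq_norm_pt, mul_pow]
      have h2 : (1 : ℝ) ≤ (n : ℝ) ^ 2 := by
        have : (1 : ℤ) ≤ n ^ 2 := by
          have := Int.one_le_abs hn
          nlinarith [sq_abs n]
        exact_mod_cast this
      nlinarith [sq_nonneg (m : ℝ), sq_nonneg t]
  · filter_upwards [eventually_ge_atTop (1 : ℝ)] with t ht p
    exact term_le k p ht

theorem sum_line (k : ℕ) : (∑' p : ℤ × ℤ, if p.2 = 0 then ((p.1 : ℂ) ^ k)⁻¹ else 0) =
    ∑' m : ℤ, ((m : ℂ) ^ k)⁻¹ := by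
  have hinj : Function.Injective (fun m : ℤ => ((m, 0) : ℤ × ℤ)) := by
    intro a b h
    exact (Prod.mk.injEq _ _ _ _ ▸ h).1
  have h := hinj.tsum_eq (f := fun p : ℤ × ℤ => if p.2 = 0 then ((p.1 : ℂ) ^ k)⁻¹ else 0) (by
    rintro ⟨m, n⟩ hp
    rw [Function.mem_support] at hp
    by_cases hn : n = 0
    · subst hn
      exact ⟨m, rfl⟩
    · exact absurd (if_neg hn) hp)
  rw [← h]
  simp

theorem sum_int (k : ℕ) (hk : k ≠ 0) (he : Even k) {c : ℝ}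
    (h : HasSum (fun n : ℕ => (1 : ℝ) / (n : ℝ) ^ k) c) :
    ∑' m : ℤ, ((m : ℂ) ^ k)⁻¹ = ((2 * c : ℝ) : ℂ) := by
  have h1 : HasSum (fun n : ℕ => ((((n : ℤ) : ℂ)) ^ k)⁻¹) (c : ℂ) := by
    have h2 := (Complex.hasSum_ofReal.2 h)
    refine h2.congr_fun ?_ |> fun h => h
    intro n
    push_cast
    rw [one_div]
  have h2 : HasSum (fun n : ℕ => ((((-(n : ℤ) : ℤ)) : ℂ) ^ k)⁻¹) (c : ℂ) := by
    refine h1.congr_fun ?_ |> fun h => h
    intro n
    push_cast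
    rw [he.neg_pow]
  have h3 := HasSum.of_nat_of_neg (f := fun m : ℤ => ((m : ℂ) ^ k)⁻¹) h1 h2
  rw [h3.tsum_eq]
  push_cast
  rw [zero_pow hk, inv_zero]
  ring

theorem lim4 : Tendsto (fun t : ℝ => ∑' p : ℤ × ℤ, (((p.1 : ℂ) + p.2 * ta t) ^ 4)⁻¹) atTop
    (𝓝 ((2 * (Real.pi ^ 4 / 90) : ℝ) : ℂ)) := by
  have h := G_lim 4 (by norm_num)
  rw [sum_line, sum_int 4 (by norm_num) (by decide) hasSum_zeta_four] at h
  exact h

theorem lim6 : Tendsto (fun t : ℝ => ∑' p : ℤ × ℤ, (((p.1 : ℂ) + p.2 * ta t) ^ 6)⁻¹) atTop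
    (𝓝 ((2 * (Real.pi ^ 6 / 945) : ℝ) : ℂ)) := by
  have h := G_lim 6 (by norm_num)
  have h6 : HasSum (fun n : ℕ => (1 : ℝ) / (n : ℝ) ^ 6) (Real.pi ^ 6 / 945) := by
    have h2 := hasSum_zeta_nat (k := 3) (by norm_num)
    have hb : bernoulli (2 * 3) = 1 / 42 := by
      have : bernoulli 6 = 1 / 42 := by decide +kernel
      exact this
    rw [hb] at h2
    have e : ((-1 : ℝ)) ^ (3 + 1) * 2 ^ (2 * 3 - 1) * Real.pi ^ (2 * 3) * ((1 / 42 : ℚ) : ℝ) /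
        ((2 * 3).factorial : ℝ) = Real.pi ^ 6 / 945 := by
      have : ((2 * 3).factorial : ℝ) = 720 := by norm_num [Nat.factorial]
      rw [this]
      push_cast
      ring
    rw [e] at h2
    exact h2
  rw [sum_line, sum_int 6 (by norm_num) (by decide) h6] at h
  exact h

/-- the invariants as real functions -/
noncomputable def g2f (t : ℝ) : ℝ := 60 * (∑' p : ℤ × ℤ, (((p.1 : ℂ) + p.2 * ta t) ^ 4)⁻¹).re

/-- the invariants as real functions -/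
noncomputable def g3f (t : ℝ) : ℝ := 140 * (∑' p : ℤ × ℤ, (((p.1 : ℂ) + p.2 * ta t) ^ 6)⁻¹).re

theorem g2_eq (t : ℝ) (ht : t ≠ 0) : (Lr t ht).g₂ = (g2f t : ℂ) := by
  rw [PeriodPair.g₂, Lr_real 4, G_eq, g2f]
  push_cast
  rfl

theorem g3_eq (t : ℝ) (ht : t ≠ 0) : (Lr t ht).g₃ = (g3f t : ℂ) := by
  rw [PeriodPair.g₃, Lr_real 6, G_eq, g3f]
  push_cast
  rfl

theorem g2_lim : Tendsto g2f atTop (𝓝 (4 * Real.pi ^ 4 / 3)) := by
  have h := ((Complex.continuous_re.tendsto _).comp lim4).const_mul 60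
  have e : (60 : ℝ) * ((2 * (Real.pi ^ 4 / 90) : ℝ) : ℂ).re = 4 * Real.pi ^ 4 / 3 := by
    rw [Complex.ofReal_re]; ring
  rw [e] at h
  exact h

theorem g3_lim : Tendsto g3f atTop (𝓝 (8 * Real.pi ^ 6 / 27)) := by
  have h := ((Complex.continuous_re.tendsto _).comp lim6).const_mul 140
  have e : (140 : ℝ) * ((2 * (Real.pi ^ 6 / 945) : ℝ) : ℂ).re = 8 * Real.pi ^ 6 / 27 := by
    rw [Complex.ofReal_re]; ring
  rw [e] at h
  exact h

theorem G6_one : (Lr 1 one_ne_zero).G 6 = 0 := by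
  have h := G_mul (Lr 1 one_ne_zero) Complex.I 4 Complex.I_pow_four (by norm_num) (by
    intro l hl
    obtain ⟨m, n, rfl⟩ := mem_Lr.1 hl
    refine mem_Lr.2 ⟨-n, m, ?_⟩
    rw [ta_eq]
    push_cast
    linear_combination (-(n : ℂ)) * Complex.I_sq) 6
  have e : Complex.I ^ 6 = -1 := by
    calc Complex.I ^ 6 = (Complex.I ^ 2) ^ 3 := by ring
      _ = -1 := by rw [Complex.I_sq]; norm_num
  rw [e] at h
  linear_combination (-1 / 2 : ℂ) * h

theorem G4_one : 0 < ((Lr 1 one_ne_zero).G 4).re := by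
  refine G4_sq_pos (Lr 1 one_ne_zero) rfl ?_
  change ta 1 = Complex.I
  rw [ta_eq]
  push_cast
  ring

theorem exists_t : ∃ t : ℝ, 0 < t ∧
    g2f t ^ 3 * (4879 / 216) ^ 2 - (481 / 12) ^ 3 * g3f t ^ 2 = 0 := by
  have hc4 := G_cont 4 (by norm_num)
  have hc6 := G_cont 6 (by norm_num)
  have hg2 : ContinuousOn g2f (Ici 1) :=
    (Complex.continuous_re.comp_continuousOn hc4).const_mul 60
  have hg3 : ContinuousOn g3f (Ici 1) :=
    (Complex.continuous_re.comp_continuousOn hc6).const_mul 140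
  have hφ : ContinuousOn (fun t => g2f t ^ 3 * (4879 / 216) ^ 2 - (481 / 12) ^ 3 * g3f t ^ 2)
      (Ici 1) := by
    fun_prop
  have h1 : 0 < g2f 1 := by
    have h := G4_one
    rw [G_eq] at h
    unfold g2f
    linarith
  have h2 : g3f 1 = 0 := by
    have h := G6_one
    rw [G_eq] at h
    unfold g3f
    rw [h]
    simp
  have hlim : Tendsto (fun t => g2f t ^ 3 * (4879 / 216) ^ 2 - (481 / 12) ^ 3 * g3f t ^ 2) atTop
      (𝓝 ((4 * Real.pi ^ 4 / 3) ^ 3 * (4879 / 216) ^ 2 - (481 / 12) ^ 3 * (8 * Real.pi ^ 6 / 27) ^ 2)) :=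
    ((g2_lim.pow 3).mul_const _).sub ((g3_lim.pow 2).const_mul _)
  have hneg : (4 * Real.pi ^ 4 / 3) ^ 3 * (4879 / 216) ^ 2 -
      (481 / 12) ^ 3 * (8 * Real.pi ^ 6 / 27) ^ 2 < 0 := by
    have e : (4 * Real.pi ^ 4 / 3) ^ 3 * (4879 / 216) ^ 2 -
      (481 / 12) ^ 3 * (8 * Real.pi ^ 6 / 27) ^ 2 = -(Real.pi ^ 12 * (64 / 27 * (87480000 / 46656))) := by
      ring
    rw [e]
    have : 0 < Real.pi ^ 12 := by positivity
    linarith
  obtain ⟨T, hT1, hT⟩ := ((eventually_ge_atTop (1 : ℝ)).and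
    (hlim.eventually (gt_mem_nhds hneg))).exists
  have h5 := intermediate_value_Icc' hT1 (hφ.mono Icc_subset_Ici_self)
  have h6 : (0 : ℝ) ∈ Icc (g2f T ^ 3 * (4879 / 216) ^ 2 - (481 / 12) ^ 3 * g3f T ^ 2)
      (g2f 1 ^ 3 * (4879 / 216) ^ 2 - (481 / 12) ^ 3 * g3f 1 ^ 2) := by
    refine ⟨hT.le, ?_⟩
    rw [h2]
    have h7 : 0 < g2f 1 ^ 3 := by positivity
    have h8 : g2f 1 ^ 3 * (4879 / 216) ^ 2 - (481 / 12) ^ 3 * 0 ^ 2 =
        g2f 1 ^ 3 * (4879 / 216) ^ 2 := by ring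
    rw [h8]
    positivity
  obtain ⟨t, ht, hφt⟩ := h5 h6
  exact ⟨t, by have := ht.1; linarith, hφt⟩

theorem m_lat : Pool.Agent.Run7.h741.MF.S_LAT := by
  obtain ⟨t, ht, hφ⟩ := exists_t
  have htn := ht.ne'
  obtain ⟨a, ha⟩ : ∃ a, a = g2f t := ⟨_, rfl⟩
  obtain ⟨b, hb⟩ : ∃ b, b = g3f t := ⟨_, rfl⟩
  have hg2 := g2_eq t htn
  have hg3 := g3_eq t htn
  rw [← ha] at hg2 hφ
  rw [← hb] at hg3 hφ
  have hnb : ¬ (a = 0 ∧ b = 0) := by
    rintro ⟨h1, h2⟩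
    apply not_both (Lr_halves (t := t) (ht := htn))
    rw [hg2, hg3, h1, h2]
    simp
  have hb0 : b ≠ 0 := by
    intro h
    apply hnb
    refine ⟨?_, h⟩
    rw [h] at hφ
    have : a ^ 3 = 0 := by linarith
    exact pow_eq_zero_iff (by norm_num) |>.1 this
  have ha0 : a ≠ 0 := by
    intro h
    apply hnb
    refine ⟨h, ?_⟩
    rw [h] at hφ
    have : b ^ 2 = 0 := by linarith
    exact pow_eq_zero_iff (by norm_num) |>.1 this
  obtain ⟨μ, hμ⟩ : ∃ μ : ℝ, μ = (4879 / 216 / b) / (481 / 12 / a) := ⟨_, rfl⟩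
  have hμ0 : μ ≠ 0 := by
    rw [hμ]
    positivity
  have hcu : (481 / 12 : ℝ) ^ 3 * b ^ 2 = (4879 / 216) ^ 2 * a ^ 3 := by linarith
  have hR : μ * b * (481 / 12) = 4879 / 216 * a := by
    rw [hμ]
    field_simp
  have hb2 : b ^ 2 ≠ 0 := pow_ne_zero _ hb0
  have hμ2 : μ ^ 2 * a = 481 / 12 := by
    have h1 : (b ^ 2 * (481 / 12) ^ 2) * (μ ^ 2 * a) = (b ^ 2 * (481 / 12) ^ 2) * (481 / 12) := by
      linear_combination (μ * b * (481 / 12) + 4879 / 216 * a) * a * hR - hcu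
    exact mul_left_cancel₀ (mul_ne_zero hb2 (by norm_num)) h1
  have hμ3 : μ ^ 3 * b = 4879 / 216 := by
    have h1 : (b ^ 2 * (481 / 12) ^ 3) * (μ ^ 3 * b) =
        (b ^ 2 * (481 / 12) ^ 3) * (4879 / 216) := by
      linear_combination ((μ * b * (481 / 12)) ^ 2 + (μ * b * (481 / 12)) * (4879 / 216 * a) +
        (4879 / 216 * a) ^ 2) * hR - (4879 / 216) * hcu
    exact mul_left_cancel₀ (mul_ne_zero hb2 (by norm_num)) h1
  have hμ2' : (μ : ℂ) ^ 2 * a = 481 / 12 := by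
    rw [← Complex.ofReal_pow, ← Complex.ofReal_mul, hμ2]
    norm_num
  have hμ3' : (μ : ℂ) ^ 3 * b = 4879 / 216 := by
    rw [← Complex.ofReal_pow, ← Complex.ofReal_mul, hμ3]
    norm_num
  rcases lt_or_gt_of_ne hμ0 with hneg | hpos
  · obtain ⟨s, hs, hs2⟩ : ∃ s : ℝ, 0 < s ∧ s ^ 2 * (-μ) = 1 := by
      refine ⟨(√(-μ))⁻¹, inv_pos.2 (Real.sqrt_pos.2 (by linarith)), ?_⟩
      rw [inv_pow, Real.sq_sqrt (by linarith), inv_mul_cancel₀ (by linarith)]
    have hs2' : (s : ℂ) ^ 2 * (-μ) = 1 := by exact_mod_cast hs2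
    have hs0 : (s : ℂ) ≠ 0 := by exact_mod_cast hs.ne'
    have hlam : (s : ℂ) * Complex.I ≠ 0 := mul_ne_zero hs0 Complex.I_ne_zero
    have h4 : ((s : ℂ) * Complex.I) ^ 4 * μ ^ 2 = 1 := by
      rw [mul_pow, Complex.I_pow_four]
      linear_combination (-(s : ℂ) ^ 2 * μ + 1) * hs2'
    have h6 : ((s : ℂ) * Complex.I) ^ 6 * μ ^ 3 = 1 := by
      have e : Complex.I ^ 6 = -1 := by
        calc Complex.I ^ 6 = (Complex.I ^ 2) ^ 3 := by ring
          _ = -1 := by rw [Complex.I_sq]; norm_num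
      rw [mul_pow, e]
      linear_combination (((s : ℂ) ^ 2 * (-μ)) ^ 2 + (s : ℂ) ^ 2 * (-μ) + 1) * hs2'
    refine ⟨scale (Lr t htn) ((s : ℂ) * Complex.I) hlam, s * t, s, by positivity,
      by positivity, ?_, ?_, ?_⟩
    · rw [scale_g2, hg2, ← hμ2', inv_eq_of_mul_eq_one_right h4]
    · rw [scale_g3, hg3, ← hμ3', inv_eq_of_mul_eq_one_right h6]
    · intro w
      rw [PeriodPair.mem_lattice]
      simp only [scale, Lr, ta_eq]
      constructor
      · rintro ⟨m, n, rfl⟩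
        refine ⟨-n, m, ?_⟩
        push_cast
        linear_combination (n : ℂ) * s * t * Complex.I_sq
      · rintro ⟨x, y, rfl⟩
        refine ⟨y, -x, ?_⟩
        push_cast
        linear_combination -(x : ℂ) * s * t * Complex.I_sq
  · obtain ⟨s, hs, hs2⟩ : ∃ s : ℝ, 0 < s ∧ s ^ 2 * μ = 1 := by
      refine ⟨(√μ)⁻¹, inv_pos.2 (Real.sqrt_pos.2 hpos), ?_⟩
      rw [inv_pow, Real.sq_sqrt hpos.le, inv_mul_cancel₀ hμ0]
    have hs2' : (s : ℂ) ^ 2 * μ = 1 := by exact_mod_cast hs2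
    have hs0 : (s : ℂ) ≠ 0 := by exact_mod_cast hs.ne'
    have h4 : (s : ℂ) ^ 4 * μ ^ 2 = 1 := by
      linear_combination ((s : ℂ) ^ 2 * μ + 1) * hs2'
    have h6 : (s : ℂ) ^ 6 * μ ^ 3 = 1 := by
      linear_combination (((s : ℂ) ^ 2 * μ) ^ 2 + (s : ℂ) ^ 2 * μ + 1) * hs2'
    refine ⟨scale (Lr t htn) (s : ℂ) hs0, s, s * t, by positivity,
      by positivity, ?_, ?_, ?_⟩
    · rw [scale_g2, hg2, ← hμ2', inv_eq_of_mul_eq_one_right h4]
    · rw [scale_g3, hg3, ← hμ3', inv_eq_of_mul_eq_one_right h6]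
    · intro w
      rw [PeriodPair.mem_lattice]
      simp only [scale, Lr, ta_eq]
      constructor
      · rintro ⟨m, n, rfl⟩
        refine ⟨m, n, ?_⟩
        push_cast
        ring
      · rintro ⟨x, y, rfl⟩
        refine ⟨x, y, ?_⟩
        push_cast
        ring

end Run7.h209.P15
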