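import Pool.Agent.Run7.h741.MF.Stm
import Pool.Agent.W349.MT.TORS

/-!
# Project P15, statement M4 (first part): the points of order four
-/

set_option autoImplicit false

namespace Run7.h209.P15

open Pool.Agent.W97.MT Pool.Agent.Helper487.ECM Pool.Agent.W349.MT

theorem m_tors : Pool.Agent.Run7.h741.MF.S_TORS := by
  intro L hg2 hg3 u hu hP
  have hu' : u ∈ Dom L := hu
  have hY1 : L.derivWeierstrassP u ^ 2 = 2025 := by
    rw [L.derivWeierstrassP_sq u hu, hP, hg2, hg3]; norm_num
  have hY1ne : L.derivWeierstrassP u ≠ 0 := by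
    intro h; rw [h] at hY1; norm_num at hY1
  have h2u : 2 * u ∉ L.lattice := fun h => hY1ne (dwp_zero L u h)
  have h2u' : u + u ∈ Dom L := by
    show u + u ∉ L.lattice
    rw [← two_mul]; exact h2u
  have hP2 : L.weierstrassP (2 * u) = 41 / 12 := by
    have h := wp_dup L hu' h2u' (by rw [wp_one_eq]; exact hY1ne)
    rw [wp_two L hu', wp_one_eq, wp_zero_eq, hP, hg2, ← two_mul] at h
    rw [h, div_pow, mul_pow, hY1]
    norm_num
  refine ⟨h2u, hP2, ?_⟩
  by_contra h4
  have h4' : 2 * (2 * u) ∉ L.lattice := by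
    rw [show 2 * (2 * u) = 4 * u by ring]; exact h4
  have h := Wg.wpd_ne L (2 * u) h4'
  apply h
  have hsq := L.derivWeierstrassP_sq _ h2u
  rw [hP2, hg2, hg3] at hsq
  have : L.derivWeierstrassP (2 * u) ^ 2 = 0 := by rw [hsq]; norm_num
  exact pow_eq_zero_iff (two_ne_zero) |>.1 this

end Run7.h209.P15
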