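import Pool.Agent.W97.MT.Stm

/-!
# Project P15, piece (B1a): the curve `E15 = [1, 1, 1, -10, -10]` (the modular curve `X_0(15)`)

`eight` : `8 ∣ #E15(𝔽_p)` for `p ≠ 2, 3, 5`; `minimal15` : minimality, invariants, small counts, `affCount ≤ 2 p`.
-/

set_option autoImplicit false

namespace Run7.h209.P15

open Pool.Agent.W97.MT WeierstrassCurve WeierstrassCurve.Affine

/-- The curve `y² + xy + y = x³ + x² - 10x - 10` (the modular curve `X_0(15)`). -/
def E15 : WeierstrassCurve ℤ := ⟨1, 1, 1, -10, -10⟩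

theorem eight (p : ℕ) (hp : p.Prime) (h2 : p ≠ 2) (h3 : p ≠ 3) (h5 : p ≠ 5) :
    8 ∣ affCount E15 p + 1 := by
  classical
  haveI : Fact p.Prime := ⟨hp⟩
  have hne : ∀ n : ℕ, (n : ZMod p) = 0 → p ∣ n := fun n h => (ZMod.natCast_eq_zero_iff n p).1 h
  have h2' : (2 : ZMod p) ≠ 0 := by
    intro h
    have := hne 2 (by exact_mod_cast h)
    exact h2 ((Nat.prime_dvd_prime_iff_eq hp Nat.prime_two).1 this)
  have h3' : (3 : ZMod p) ≠ 0 := by
    intro h
    have := hne 3 (by exact_mod_cast h)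
    exact h3 ((Nat.prime_dvd_prime_iff_eq hp (by norm_num)).1 this)
  have h5' : (5 : ZMod p) ≠ 0 := by
    intro h
    have := hne 5 (by exact_mod_cast h)
    exact h5 ((Nat.prime_dvd_prime_iff_eq hp (by norm_num)).1 this)
  have h45 : (45 : ZMod p) ≠ 0 := by
    have : (45 : ZMod p) = 3 * 3 * 5 := by norm_num
    rw [this]
    exact mul_ne_zero (mul_ne_zero h3' h3') h5'
  obtain ⟨W, hW⟩ : ∃ W : WeierstrassCurve (ZMod p), W = E15.map (Int.castRingHom (ZMod p)) :=
    ⟨_, rfl⟩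
  have ha1 : W.a₁ = 1 := by simp [hW, E15]
  have ha2 : W.a₂ = 1 := by simp [hW, E15]
  have ha3 : W.a₃ = 1 := by simp [hW, E15]
  have ha4 : W.a₄ = -10 := by simp [hW, E15]
  have ha6 : W.a₆ = -10 := by simp [hW, E15]
  have hΔ : W.Δ ≠ 0 := by
    have : W.Δ = 3 ^ 4 * 5 ^ 4 := by
      simp only [WeierstrassCurve.Δ, WeierstrassCurve.b₂, WeierstrassCurve.b₄, WeierstrassCurve.b₆,
        WeierstrassCurve.b₈, ha1, ha2, ha3, ha4, ha6]
      norm_num
    rw [this]
    exact mul_ne_zero (pow_ne_zero _ h3') (pow_ne_zero _ h5')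
  haveI : W.IsElliptic := ⟨isUnit_iff_ne_zero.2 hΔ⟩
  have hcard : Nat.card (WeierstrassCurve.Affine.Point W.toAffine) = affCount E15 p + 1 := by
    rw [Nat.card_congr (pointEquiv W.toAffine)]
    unfold affCount
    rw [← hW]
    exact Finite.card_option
  haveI : Finite (WeierstrassCurve.Affine.Point W.toAffine) := by
    haveI : Finite (WithZero {xy : ZMod p × ZMod p // W.toAffine.Equation xy.fst xy.snd}) :=
      inferInstanceAs (Finite (Option {xy : ZMod p × ZMod p //
        W.toAffine.Equation xy.fst xy.snd}))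
    exact Finite.of_equiv _ (pointEquiv W.toAffine).symm
  have hPe : W.toAffine.Equation 8 18 := by
    rw [WeierstrassCurve.Affine.equation_iff, ha1, ha2, ha3, ha4, ha6]; norm_num
  have hQe : W.toAffine.Equation 3 (-2) := by
    rw [WeierstrassCurve.Affine.equation_iff, ha1, ha2, ha3, ha4, ha6]; norm_num
  have hTe : W.toAffine.Equation (-1) 0 := by
    rw [WeierstrassCurve.Affine.equation_iff, ha1, ha2, ha3, ha4, ha6]; norm_num
  have hPn := (equation_iff_nonsingular (W := W.toAffine)).1 hPe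
  have hQn := (equation_iff_nonsingular (W := W.toAffine)).1 hQe
  have hTn := (equation_iff_nonsingular (W := W.toAffine)).1 hTe
  obtain ⟨P, hP⟩ : ∃ P : W.toAffine.Point, P = Point.some _ _ hPn := ⟨_, rfl⟩
  obtain ⟨Q, hQ⟩ : ∃ Q : W.toAffine.Point, Q = Point.some _ _ hQn := ⟨_, rfl⟩
  obtain ⟨T, hT⟩ : ∃ T : W.toAffine.Point, T = Point.some _ _ hTn := ⟨_, rfl⟩
  have hT0 : T ≠ 0 := by rw [hT]; exact Point.some_ne_zero _
  have hQ0 : Q ≠ 0 := by rw [hQ]; exact Point.some_ne_zero _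
  have hTT : T + T = 0 := by
    rw [hT]
    apply Point.add_self_of_Y_eq
    rw [negY, ha1, ha3]; norm_num
  have hQQ : Q + Q = 0 := by
    rw [hQ]
    apply Point.add_self_of_Y_eq
    rw [negY, ha1, ha3]; norm_num
  have hY : (18 : ZMod p) ≠ W.toAffine.negY 8 18 := by
    rw [negY, ha1, ha3]
    intro h
    apply h45
    linear_combination h
  have hsl : W.toAffine.slope 8 8 18 18 = 4 := by
    rw [slope_of_Y_ne rfl hY, ha1, ha2, ha4, negY, ha1, ha3]
    rw [div_eq_iff]
    · norm_num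
    · intro h; apply h45; linear_combination h
  have hPP : P + P = Q := by
    rw [hP, hQ, Point.add_self_of_Y_ne hY]
    have e1 : W.toAffine.addX 8 8 (W.toAffine.slope 8 8 18 18) = 3 := by
      rw [hsl, addX, ha1, ha2]; norm_num
    have e2 : W.toAffine.addY 8 8 18 (W.toAffine.slope 8 8 18 18) = -2 := by
      rw [addY, negY, e1, negAddY, e1, hsl, ha1, ha3]; norm_num
    simp only [e1, e2]
  have hP4 : addOrderOf P = 4 := by
    have h := addOrderOf_eq_prime_pow (x := P) (p := 2) (n := 1) (by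
      rw [pow_one, two_nsmul, hPP]; exact hQ0) (by
      rw [show (2 : ℕ) ^ (1 + 1) = 2 * 2 from rfl, mul_nsmul, two_nsmul, two_nsmul, hPP, hQQ])
    rw [h]; norm_num
  have hx : ∀ x y x' y' : ZMod p, ∀ h : W.toAffine.Nonsingular x y, ∀ h' : W.toAffine.Nonsingular x' y',
      (Point.some _ _ h : W.toAffine.Point) = Point.some _ _ h' → x = x' := by
    intro x y x' y' h h' he
    have := Point.some.inj he
    exact this.1
  have hTP : T ∉ AddSubgroup.zmultiples P := by
    intro hmem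
    obtain ⟨n, hn⟩ := AddSubgroup.mem_zmultiples_iff.1 hmem
    have h4P : (4 : ℤ) • P = 0 := by
      have := addOrderOf_nsmul_eq_zero P
      rw [hP4] at this
      exact_mod_cast this
    have hmod : n • P = (n % 4) • P := by
      conv_lhs => rw [← Int.emod_add_mul_ediv n 4]
      rw [add_zsmul, mul_comm (4 : ℤ), mul_zsmul, h4P, zsmul_zero, add_zero]
    have hr : n % 4 = 0 ∨ n % 4 = 1 ∨ n % 4 = 2 ∨ n % 4 = 3 := by omega
    rw [hmod] at hn
    rcases hr with h | h | h | h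
    · rw [h, zero_zsmul] at hn
      exact hT0 hn.symm
    · rw [h, one_zsmul, hP, hT] at hn
      have := hx _ _ _ _ _ _ hn
      apply h3'
      have h9 : (3 : ZMod p) * 3 = 0 := by linear_combination this
      exact (mul_eq_zero.1 h9).elim id id
    · rw [h, two_zsmul, hPP, hQ, hT] at hn
      have := hx _ _ _ _ _ _ hn
      apply h2'
      have h9 : (2 : ZMod p) * 2 = 0 := by linear_combination this
      exact (mul_eq_zero.1 h9).elim id id
    · have h3P : (3 : ℤ) • P = -P := by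
        have e : (3 : ℤ) • P = (4 : ℤ) • P - P := by
          rw [show (4 : ℤ) = 3 + 1 from rfl, add_zsmul, one_zsmul, add_sub_cancel_right]
        rw [e, h4P, zero_sub]
      rw [h, h3P, hP, hT, Point.neg_some] at hn
      have := hx _ _ _ _ _ _ hn
      apply h3'
      have h9 : (3 : ZMod p) * 3 = 0 := by linear_combination this
      exact (mul_eq_zero.1 h9).elim id id
  rw [← hcard]
  have hH : Nat.card (AddSubgroup.zmultiples P) = 4 := by rw [Nat.card_zmultiples, hP4]
  have hq : 2 ∣ Nat.card (W.toAffine.Point ⧸ AddSubgroup.zmultiples P) := by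
    have ho : addOrderOf (QuotientAddGroup.mk T : W.toAffine.Point ⧸ AddSubgroup.zmultiples P) = 2 := by
      haveI : Fact (Nat.Prime 2) := ⟨Nat.prime_two⟩
      apply addOrderOf_eq_prime
      · rw [← QuotientAddGroup.mk_nsmul, two_nsmul, hTT]; rfl
      · intro h
        exact hTP ((QuotientAddGroup.eq_zero_iff T).1 h)
    rw [← ho]
    exact addOrderOf_dvd_natCard _
  rw [AddSubgroup.card_eq_card_quotient_mul_card_addSubgroup (AddSubgroup.zmultiples P), hH]
  obtain ⟨k, hk⟩ := hq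
  rw [hk]
  exact ⟨k, by ring⟩

theorem e15_eq (p : ℕ) (P : ZMod p × ZMod p) :
    (E15.map (Int.castRingHom (ZMod p))).toAffine.Equation P.1 P.2 ↔
      P.2 ^ 2 + P.1 * P.2 + P.2 = P.1 ^ 3 + P.1 ^ 2 - 10 * P.1 - 10 := by
  have ha1 : (E15.map (Int.castRingHom (ZMod p))).a₁ = 1 := by simp [E15]
  have ha2 : (E15.map (Int.castRingHom (ZMod p))).a₂ = 1 := by simp [E15]
  have ha3 : (E15.map (Int.castRingHom (ZMod p))).a₃ = 1 := by simp [E15]
  have ha4 : (E15.map (Int.castRingHom (ZMod p))).a₄ = -10 := by simp [E15]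
  have ha6 : (E15.map (Int.castRingHom (ZMod p))).a₆ = -10 := by simp [E15]
  rw [WeierstrassCurve.Affine.equation_iff, ha1, ha2, ha3, ha4, ha6]
  constructor <;> intro h <;> linear_combination h

theorem aff_eq (p : ℕ) [NeZero p] : affCount E15 p =
    (Finset.univ.filter (fun P : ZMod p × ZMod p =>
      P.2 ^ 2 + P.1 * P.2 + P.2 = P.1 ^ 3 + P.1 ^ 2 - 10 * P.1 - 10)).card := by
  unfold affCount
  rw [Nat.card_congr (Equiv.subtypeEquivRight (e15_eq p)), Nat.card_eq_fintype_card,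
    Fintype.card_subtype]

theorem delta15 : E15.Δ = 50625 := by
  simp [WeierstrassCurve.Δ, WeierstrassCurve.b₂, WeierstrassCurve.b₄, WeierstrassCurve.b₆,
    WeierstrassCurve.b₈, E15]

theorem min15 : IsGloballyMinimal E15 := by
  refine ⟨by rw [delta15]; norm_num, ?_⟩
  intro W' C h
  have h1 := congrArg WeierstrassCurve.Δ h
  rw [WeierstrassCurve.variableChange_Δ, WeierstrassCurve.map_Δ, WeierstrassCurve.map_Δ,
    delta15] at h1
  obtain ⟨r, hr⟩ : ∃ r : ℚ, r = ((C.u⁻¹ : ℚˣ) : ℚ) := ⟨_, rfl⟩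
  rw [← hr] at h1
  have hr0 : r ≠ 0 := by rw [hr]; exact Units.ne_zero _
  have h2 : r ^ 12 * 50625 = (W'.Δ : ℚ) := by
    simpa using h1
  have h3 : (r.num : ℚ) ^ 12 * 50625 = (W'.Δ : ℚ) * (r.den : ℚ) ^ 12 := by
    have h4 : r = (r.num : ℚ) / (r.den : ℚ) := (Rat.num_div_den r).symm
    have hd : (r.den : ℚ) ≠ 0 := by exact_mod_cast r.den_nz
    have h5 : (r.num : ℚ) = r * r.den := by
      rw [eq_comm, Rat.mul_den_eq_num]
    rw [h5, ← h2]; ring
  have h3' : r.num ^ 12 * 50625 = W'.Δ * (r.den : ℤ) ^ 12 := by exact_mod_cast h3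
  have hcop : IsCoprime ((r.den : ℤ) ^ 12) (r.num ^ 12) := by
    apply IsCoprime.pow
    rw [Int.isCoprime_iff_gcd_eq_one, Int.gcd_comm]
    have := r.reduced
    rwa [Int.gcd, Int.natAbs_natCast]
  have hdvd : ((r.den : ℤ) ^ 12) ∣ (50625 : ℤ) := by
    apply hcop.dvd_of_dvd_mul_left
    rw [h3']
    exact Dvd.intro_left _ rfl
  have hdvd' : r.den ^ 12 ∣ 50625 := by
    have : ((r.den ^ 12 : ℕ) : ℤ) ∣ ((50625 : ℕ) : ℤ) := by
      push_cast
      exact hdvd
    exact Int.natCast_dvd_natCast.1 this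
  have hden : r.den = 1 := by
    have hle : r.den ≤ 2 := by
      by_contra hc
      push Not at hc
      have h6 : 3 ^ 12 ≤ r.den ^ 12 := Nat.pow_le_pow_left hc 12
      have h7 := Nat.le_of_dvd (by norm_num) hdvd'
      norm_num at h6
      omega
    have hpos := r.den_pos
    interval_cases hh : r.den
    · rfl
    · norm_num at hdvd'
  rw [hden] at h3'
  have h8 : W'.Δ = r.num ^ 12 * 50625 := by rw [h3']; ring
  rw [h8, abs_mul, abs_pow, delta15]
  have hn : 1 ≤ |r.num| := Int.one_le_abs (Rat.num_ne_zero.2 hr0)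
  have : (1 : ℤ) ≤ |r.num| ^ 12 := one_le_pow₀ hn
  norm_num
  linarith

theorem affCount_le (p : ℕ) (hp : p.Prime) : affCount E15 p ≤ 2 * p := by
  haveI : Fact p.Prime := ⟨hp⟩
  haveI : NeZero p := ⟨hp.ne_zero⟩
  rw [aff_eq]
  have h1 : (Finset.univ.filter (fun P : ZMod p × ZMod p =>
      P.2 ^ 2 + P.1 * P.2 + P.2 = P.1 ^ 3 + P.1 ^ 2 - 10 * P.1 - 10)).card ≤
      2 * (Finset.univ : Finset (ZMod p)).card := by
    apply Finset.card_le_mul_card_image_of_maps_to (f := Prod.fst)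
    · intro _ _; exact Finset.mem_univ _
    · intro x _
      rcases Finset.eq_empty_or_nonempty ((Finset.univ.filter (fun P : ZMod p × ZMod p =>
        P.2 ^ 2 + P.1 * P.2 + P.2 = P.1 ^ 3 + P.1 ^ 2 - 10 * P.1 - 10)).filter (fun P => P.1 = x)) with h | h
      · rw [h]; simp
      · obtain ⟨⟨x0, y0⟩, h0⟩ := h
        simp only [Finset.mem_filter, Finset.mem_univ, true_and] at h0
        obtain ⟨h0, rfl⟩ := h0
        refine le_trans (Finset.card_le_card (t := {(x0, y0), (x0, -x0 - 1 - y0)}) ?_)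
          Finset.card_le_two
        rintro ⟨x1, y1⟩ h1
        simp only [Finset.mem_filter, Finset.mem_univ, true_and] at h1
        obtain ⟨h1, rfl⟩ := h1
        have h2 : (y1 - y0) * (y1 - (-x1 - 1 - y0)) = 0 := by linear_combination h1 - h0
        rcases mul_eq_zero.1 h2 with h3 | h3
        · rw [sub_eq_zero.1 h3]; simp
        · rw [sub_eq_zero.1 h3]; simp
  rwa [Finset.card_univ, ZMod.card] at h1

theorem minimal15 : IsGloballyMinimal E15 ∧ E15.c₄ = 481 ∧ E15.c₆ = 4879 ∧ E15.Δ = 50625 ∧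
    affCount E15 2 = 3 ∧ affCount E15 3 = 4 ∧ affCount E15 5 = 4 ∧
    ∀ p : ℕ, p.Prime → affCount E15 p ≤ 2 * p := by
  refine ⟨min15, ?_, ?_, delta15, ?_, ?_, ?_, affCount_le⟩
  · simp [WeierstrassCurve.c₄, WeierstrassCurve.b₂, WeierstrassCurve.b₄, E15]
  · simp [WeierstrassCurve.c₆, WeierstrassCurve.b₂, WeierstrassCurve.b₄, WeierstrassCurve.b₆, E15]
  · rw [aff_eq]; decide
  · rw [aff_eq]; decide
  · rw [aff_eq]; decide

end Run7.h209.P15
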