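import Pool.Agent.Run7.h741.MF.Stm
import Pool.Agent.Run7.h209.P15.Hasse
import Pool.Agent.Run7.h209.P15.Eight

/-!
# Project P15: the statements M2 (HASSE) and M3 (FOUR, MIN) of `Run7/h741/MF/Stm.lean`
-/

set_option autoImplicit false

namespace Run7.h209.P15

open Pool.Agent.Run7.h741

theorem m_hasse : MF.S_HASSE := by
  intro p _ hp φ ξ σ hξ hσ h1 h2
  refine hasse MF.E15 (-1) p hp φ ξ σ hξ hσ h1 ?_
  rw [h2]
  have hA : (MF.E15.b₂ + 12 * (-1) : ℤ) = -7 := by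
    simp [WeierstrassCurve.b₂, MF.E15]
  have hB : (12 * (-1) ^ 2 + 2 * MF.E15.b₂ * (-1) + 2 * MF.E15.b₄ : ℤ) = -36 := by
    simp [WeierstrassCurve.b₂, WeierstrassCurve.b₄, MF.E15]
  have hC : (4 * (-1) ^ 3 + MF.E15.b₂ * (-1) ^ 2 + 2 * MF.E15.b₄ * (-1) + MF.E15.b₆ : ℤ) = 0 := by
    simp [WeierstrassCurve.b₂, WeierstrassCurve.b₄, WeierstrassCurve.b₆, MF.E15]
  rw [hA, hB, hC]
  have e1 : (((-7 : ℤ)) : ZMod p) = -7 := by push_cast; ring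
  have e2 : (((-36 : ℤ)) : ZMod p) = -36 := by push_cast; ring
  rw [e1, e2, Int.cast_zero, map_zero, map_neg, map_neg, map_ofNat, map_ofNat]
  ring

theorem m_four : MF.S_FOUR := by
  intro p hp h2 h3 h5
  exact Dvd.dvd.trans (by norm_num) (eight p hp h2 h3 h5)

theorem m_eight (p : ℕ) (hp : p.Prime) (h2 : p ≠ 2) (h3 : p ≠ 3) (h5 : p ≠ 5) :
    8 ∣ Pool.Agent.W97.MT.affCount MF.E15 p + 1 := eight p hp h2 h3 h5

theorem m_min : MF.S_MIN := ⟨minimal15.2.2.2.2.1, minimal15.2.2.2.2.2.1, minimal15.2.2.2.2.2.2.1,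
  minimal15.2.2.2.2.2.2.2⟩

end Run7.h209.P15
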