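import Pool.Agent.W349.MT.TORS

/-!
# Generic lemmas for the ports of `W97/MT` (any level)

`eight_gen` : `8 ∣ #W(𝔽_p)` from an integral point of order four and a further point of order two; `tors_gen` : the
points of order four on the torus; `affCount_le_gen` : `affCount W p ≤ 2 p` for every `W`.
-/

set_option autoImplicit false

namespace Run7.h209.P15

open Pool.Agent.W97.MT WeierstrassCurve WeierstrassCurve.Affine

theorem eight_gen (W₀ : WeierstrassCurve ℤ) (p : ℕ) (hp : p.Prime) (x1 y1 x2 y2 x3 y3 l : ℤ)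
    (hΔ : ¬ (p : ℤ) ∣ W₀.Δ)
    (e1 : y1 ^ 2 + W₀.a₁ * x1 * y1 + W₀.a₃ * y1 = x1 ^ 3 + W₀.a₂ * x1 ^ 2 + W₀.a₄ * x1 + W₀.a₆)
    (e2 : y2 ^ 2 + W₀.a₁ * x2 * y2 + W₀.a₃ * y2 = x2 ^ 3 + W₀.a₂ * x2 ^ 2 + W₀.a₄ * x2 + W₀.a₆)
    (e3 : y3 ^ 2 + W₀.a₁ * x3 * y3 + W₀.a₃ * y3 = x3 ^ 3 + W₀.a₂ * x3 ^ 2 + W₀.a₄ * x3 + W₀.a₆)
    (t2 : 2 * y2 + W₀.a₁ * x2 + W₀.a₃ = 0) (t3 : 2 * y3 + W₀.a₁ * x3 + W₀.a₃ = 0)
    (hd : ¬ (p : ℤ) ∣ 2 * y1 + W₀.a₁ * x1 + W₀.a₃)
    (hl : l * (2 * y1 + W₀.a₁ * x1 + W₀.a₃) = 3 * x1 ^ 2 + 2 * W₀.a₂ * x1 + W₀.a₄ - W₀.a₁ * y1)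
    (hx : l ^ 2 + W₀.a₁ * l - W₀.a₂ - 2 * x1 = x2)
    (hy : -(l * (x2 - x1) + y1) - W₀.a₁ * x2 - W₀.a₃ = y2)
    (h13 : ¬ (p : ℤ) ∣ x1 - x3) (h23 : ¬ (p : ℤ) ∣ x2 - x3) : 8 ∣ affCount W₀ p + 1 := by
  classical
  haveI : Fact p.Prime := ⟨hp⟩
  have hne : ∀ n : ℤ, (n : ZMod p) = 0 → (p : ℤ) ∣ n :=
    fun n h => (ZMod.intCast_zmod_eq_zero_iff_dvd n p).1 h
  obtain ⟨W, hW⟩ : ∃ W : WeierstrassCurve (ZMod p), W = W₀.map (Int.castRingHom (ZMod p)) :=
    ⟨_, rfl⟩
  have ha1 : W.a₁ = (W₀.a₁ : ZMod p) := by rw [hW]; rfl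
  have ha2 : W.a₂ = (W₀.a₂ : ZMod p) := by rw [hW]; rfl
  have ha3 : W.a₃ = (W₀.a₃ : ZMod p) := by rw [hW]; rfl
  have ha4 : W.a₄ = (W₀.a₄ : ZMod p) := by rw [hW]; rfl
  have ha6 : W.a₆ = (W₀.a₆ : ZMod p) := by rw [hW]; rfl
  have hΔ' : W.Δ ≠ 0 := by
    rw [hW, WeierstrassCurve.map_Δ]
    intro h
    exact hΔ (hne _ h)
  haveI : W.IsElliptic := ⟨isUnit_iff_ne_zero.2 hΔ'⟩
  have hcard : Nat.card (WeierstrassCurve.Affine.Point W.toAffine) = affCount W₀ p + 1 := by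
    rw [Nat.card_congr (pointEquiv W.toAffine)]
    unfold affCount
    rw [← hW]
    exact Finite.card_option
  haveI : Finite (WeierstrassCurve.Affine.Point W.toAffine) := by
    haveI : Finite (WithZero {xy : ZMod p × ZMod p // W.toAffine.Equation xy.fst xy.snd}) :=
      inferInstanceAs (Finite (Option {xy : ZMod p × ZMod p //
        W.toAffine.Equation xy.fst xy.snd}))
    exact Finite.of_equiv _ (pointEquiv W.toAffine).symm
  have heq : ∀ x y : ℤ, y ^ 2 + W₀.a₁ * x * y + W₀.a₃ * y =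
      x ^ 3 + W₀.a₂ * x ^ 2 + W₀.a₄ * x + W₀.a₆ → W.toAffine.Equation (x : ZMod p) (y : ZMod p) := by
    intro x y h
    rw [WeierstrassCurve.Affine.equation_iff, ha1, ha2, ha3, ha4, ha6]
    exact_mod_cast congrArg (Int.cast (R := ZMod p)) h
  have hPn := (equation_iff_nonsingular (W := W.toAffine)).1 (heq x1 y1 e1)
  have hQn := (equation_iff_nonsingular (W := W.toAffine)).1 (heq x2 y2 e2)
  have hTn := (equation_iff_nonsingular (W := W.toAffine)).1 (heq x3 y3 e3)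
  obtain ⟨P, hP⟩ : ∃ P : W.toAffine.Point, P = Point.some _ _ hPn := ⟨_, rfl⟩
  obtain ⟨Q, hQ⟩ : ∃ Q : W.toAffine.Point, Q = Point.some _ _ hQn := ⟨_, rfl⟩
  obtain ⟨T, hT⟩ : ∃ T : W.toAffine.Point, T = Point.some _ _ hTn := ⟨_, rfl⟩
  have hT0 : T ≠ 0 := by rw [hT]; exact Point.some_ne_zero _
  have hQ0 : Q ≠ 0 := by rw [hQ]; exact Point.some_ne_zero _
  have t2' : (2 : ZMod p) * y2 + W₀.a₁ * x2 + W₀.a₃ = 0 := by
    exact_mod_cast congrArg (Int.cast (R := ZMod p)) t2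
  have t3' : (2 : ZMod p) * y3 + W₀.a₁ * x3 + W₀.a₃ = 0 := by
    exact_mod_cast congrArg (Int.cast (R := ZMod p)) t3
  have hd' : (2 : ZMod p) * y1 + W₀.a₁ * x1 + W₀.a₃ ≠ 0 := by
    intro h
    apply hd
    apply hne
    push_cast
    exact h
  have hl' : (l : ZMod p) * (2 * y1 + W₀.a₁ * x1 + W₀.a₃) =
      3 * x1 ^ 2 + 2 * W₀.a₂ * x1 + W₀.a₄ - W₀.a₁ * y1 := by
    exact_mod_cast congrArg (Int.cast (R := ZMod p)) hl
  have hx' : (l : ZMod p) ^ 2 + W₀.a₁ * l - W₀.a₂ - 2 * x1 = x2 := by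
    exact_mod_cast congrArg (Int.cast (R := ZMod p)) hx
  have hy' : -((l : ZMod p) * (x2 - x1) + y1) - W₀.a₁ * x2 - W₀.a₃ = y2 := by
    exact_mod_cast congrArg (Int.cast (R := ZMod p)) hy
  have hTT : T + T = 0 := by
    rw [hT]
    apply Point.add_self_of_Y_eq
    rw [negY, ha1, ha3]
    linear_combination t3'
  have hQQ : Q + Q = 0 := by
    rw [hQ]
    apply Point.add_self_of_Y_eq
    rw [negY, ha1, ha3]
    linear_combination t2'
  have hY : (y1 : ZMod p) ≠ W.toAffine.negY x1 y1 := by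
    rw [negY, ha1, ha3]
    intro h
    apply hd'
    linear_combination h
  have hsl : W.toAffine.slope (x1 : ZMod p) x1 y1 y1 = l := by
    rw [slope_of_Y_ne rfl hY, ha1, ha2, ha4, negY, ha1, ha3]
    rw [div_eq_iff]
    · linear_combination -hl'
    · intro h
      apply hd'
      linear_combination h
  have hPP : P + P = Q := by
    rw [hP, hQ, Point.add_self_of_Y_ne hY]
    have f1 : W.toAffine.addX (x1 : ZMod p) x1 (W.toAffine.slope (x1 : ZMod p) x1 y1 y1) = x2 := by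
      rw [hsl, addX, ha1, ha2]
      linear_combination hx'
    have f2 : W.toAffine.addY (x1 : ZMod p) x1 y1 (W.toAffine.slope (x1 : ZMod p) x1 y1 y1) = y2 := by
      rw [addY, negY, f1, negAddY, f1, hsl, ha1, ha3]
      linear_combination hy'
    simp only [f1, f2]
  have hP4 : addOrderOf P = 4 := by
    have h := addOrderOf_eq_prime_pow (x := P) (p := 2) (n := 1) (by
      rw [pow_one, two_nsmul, hPP]; exact hQ0) (by
      rw [show (2 : ℕ) ^ (1 + 1) = 2 * 2 from rfl, mul_nsmul, two_nsmul, two_nsmul, hPP, hQQ])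
    rw [h]; norm_num
  have hinj : ∀ x y x' y' : ZMod p, ∀ h : W.toAffine.Nonsingular x y,
      ∀ h' : W.toAffine.Nonsingular x' y',
      (Point.some _ _ h : W.toAffine.Point) = Point.some _ _ h' → x = x' := by
    intro x y x' y' h h' he
    have := Point.some.inj he
    exact this.1
  have hx13 : (x1 : ZMod p) ≠ x3 := by
    intro h
    apply h13
    apply hne
    push_cast
    rw [h, sub_self]
  have hx23 : (x2 : ZMod p) ≠ x3 := by
    intro h
    apply h23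
    apply hne
    push_cast
    rw [h, sub_self]
  have hTP : T ∉ AddSubgroup.zmultiples P := by
    intro hmem
    obtain ⟨n, hn⟩ := AddSubgroup.mem_zmultiples_iff.1 hmem
    have h4P : (4 : ℤ) • P = 0 := by
      have := addOrderOf_nsmul_eq_zero P
      rw [hP4] at this
      exact_mod_cast this
    have hmod : n • P = (n % 4) • P := by
      conv_lhs => rw [← Int.emod_add_mul_ediv n 4]
      rw [add_zsmul, mul_comm (4 : ℤ), mul_zsmul, h4P, zsmul_zero, add_zero]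
    have hr : n % 4 = 0 ∨ n % 4 = 1 ∨ n % 4 = 2 ∨ n % 4 = 3 := by omega
    rw [hmod] at hn
    rcases hr with h | h | h | h
    · rw [h, zero_zsmul] at hn
      exact hT0 hn.symm
    · rw [h, one_zsmul, hP, hT] at hn
      exact hx13 (hinj _ _ _ _ _ _ hn)
    · rw [h, two_zsmul, hPP, hQ, hT] at hn
      exact hx23 (hinj _ _ _ _ _ _ hn)
    · have h3P : (3 : ℤ) • P = -P := by
        have e : (3 : ℤ) • P = (4 : ℤ) • P - P := by
          rw [show (4 : ℤ) = 3 + 1 from rfl, add_zsmul, one_zsmul, add_sub_cancel_right]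
        rw [e, h4P, zero_sub]
      rw [h, h3P, hP, hT, Point.neg_some] at hn
      exact hx13 (hinj _ _ _ _ _ _ hn)
  rw [← hcard]
  have hH : Nat.card (AddSubgroup.zmultiples P) = 4 := by rw [Nat.card_zmultiples, hP4]
  have hq : 2 ∣ Nat.card (W.toAffine.Point ⧸ AddSubgroup.zmultiples P) := by
    have ho : addOrderOf (QuotientAddGroup.mk T : W.toAffine.Point ⧸ AddSubgroup.zmultiples P) = 2 := by
      haveI : Fact (Nat.Prime 2) := ⟨Nat.prime_two⟩
      apply addOrderOf_eq_prime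
      · rw [← QuotientAddGroup.mk_nsmul, two_nsmul, hTT]; rfl
      · intro h
        exact hTP ((QuotientAddGroup.eq_zero_iff T).1 h)
    rw [← ho]
    exact addOrderOf_dvd_natCard _
  rw [AddSubgroup.card_eq_card_quotient_mul_card_addSubgroup (AddSubgroup.zmultiples P), hH]
  obtain ⟨k, hk⟩ := hq
  rw [hk]
  exact ⟨k, by ring⟩

theorem affCount_le_gen (W : WeierstrassCurve ℤ) (p : ℕ) (hp : p.Prime) :
    affCount W p ≤ 2 * p := by
  classical
  haveI : Fact p.Prime := ⟨hp⟩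
  haveI : NeZero p := ⟨hp.ne_zero⟩
  unfold affCount
  rw [Nat.card_eq_fintype_card, Fintype.card_subtype]
  have h1 : (Finset.univ.filter (fun P : ZMod p × ZMod p =>
      (W.map (Int.castRingHom (ZMod p))).toAffine.Equation P.1 P.2)).card ≤
      2 * (Finset.univ : Finset (ZMod p)).card := by
    apply Finset.card_le_mul_card_image_of_maps_to (f := Prod.fst)
    · intro _ _; exact Finset.mem_univ _
    · intro x _
      rcases Finset.eq_empty_or_nonempty ((Finset.univ.filter (fun P : ZMod p × ZMod p =>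
        (W.map (Int.castRingHom (ZMod p))).toAffine.Equation P.1 P.2)).filter
          (fun P => P.1 = x)) with h | h
      · rw [h]; simp
      · obtain ⟨⟨x0, y0⟩, h0⟩ := h
        simp only [Finset.mem_filter, Finset.mem_univ, true_and] at h0
        obtain ⟨h0, rfl⟩ := h0
        rw [WeierstrassCurve.Affine.equation_iff] at h0
        refine le_trans (Finset.card_le_card (t := {(x0, y0),
          (x0, -(W.map (Int.castRingHom (ZMod p))).a₁ * x0 -
            (W.map (Int.castRingHom (ZMod p))).a₃ - y0)}) ?_) Finset.card_le_two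
        rintro ⟨x1, y1⟩ h1
        simp only [Finset.mem_filter, Finset.mem_univ, true_and] at h1
        obtain ⟨h1, rfl⟩ := h1
        rw [WeierstrassCurve.Affine.equation_iff] at h1
        have h2 : (y1 - y0) * (y1 - (-(W.map (Int.castRingHom (ZMod p))).a₁ * x1 -
            (W.map (Int.castRingHom (ZMod p))).a₃ - y0)) = 0 := by linear_combination h1 - h0
        rcases mul_eq_zero.1 h2 with h3 | h3
        · rw [sub_eq_zero.1 h3]; simp
        · rw [sub_eq_zero.1 h3]; simp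
  rwa [Finset.card_univ, ZMod.card] at h1

end Run7.h209.P15

namespace Run7.h209.P15

open Pool.Agent.W97.MT Pool.Agent.Helper487.ECM Pool.Agent.W349.MT

/-- points of order four on a complex torus -/
theorem tors_gen (L : PeriodPair) (X X2 : ℂ) (hY : 4 * X ^ 3 - L.g₂ * X - L.g₃ ≠ 0)
    (hX2 : (6 * X ^ 2 - L.g₂ / 2) ^ 2 = 4 * (4 * X ^ 3 - L.g₂ * X - L.g₃) * (X2 + 2 * X))
    (hz : 4 * X2 ^ 3 - L.g₂ * X2 - L.g₃ = 0) (u : ℂ) (hu : u ∉ L.lattice)
    (hP : L.weierstrassP u = X) :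
    2 * u ∉ L.lattice ∧ L.weierstrassP (2 * u) = X2 ∧ 4 * u ∈ L.lattice := by
  have hu' : u ∈ Dom L := hu
  have hY1 : L.derivWeierstrassP u ^ 2 = 4 * X ^ 3 - L.g₂ * X - L.g₃ := by
    rw [L.derivWeierstrassP_sq u hu, hP]
  have hY1ne : L.derivWeierstrassP u ≠ 0 := by
    intro h
    apply hY
    rw [← hY1, h]; norm_num
  have h2u : 2 * u ∉ L.lattice := fun h => hY1ne (dwp_zero L u h)
  have h2u' : u + u ∈ Dom L := by
    show u + u ∉ L.lattice
    rw [← two_mul]; exact h2u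
  have hP2 : L.weierstrassP (2 * u) = X2 := by
    have h := wp_dup L hu' h2u' (by rw [wp_one_eq]; exact hY1ne)
    rw [wp_two L hu', wp_one_eq, wp_zero_eq, hP, ← two_mul] at h
    obtain ⟨D, hD⟩ : ∃ D, D = 4 * X ^ 3 - L.g₂ * X - L.g₃ := ⟨_, rfl⟩
    rw [← hD] at hY1 hX2 hY
    rw [h, div_pow, mul_pow, hY1, hX2]
    have e : 4 * D * (X2 + 2 * X) / (2 ^ 2 * D) = X2 + 2 * X := by
      rw [div_eq_iff (by simpa using hY)]
      ring
    rw [e]
    ring
  refine ⟨h2u, hP2, ?_⟩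
  by_contra h4
  have h4' : 2 * (2 * u) ∉ L.lattice := by
    rw [show 2 * (2 * u) = 4 * u by ring]; exact h4
  have h := Wg.wpd_ne L (2 * u) h4'
  apply h
  have hsq := L.derivWeierstrassP_sq _ h2u
  rw [hP2, hz] at hsq
  exact pow_eq_zero_iff (two_ne_zero) |>.1 hsq

end Run7.h209.P15
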